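import Mathlib

namespace Pool.Agent.H48.LM

section SIface

/-!
# MP_5ee2d0_ag, Theorems M and N: vocabulary and the determinant argument

`G` is the geometric generic member of the family of a Calabi-Yau threefold `X` over (a covering of)
its moduli space, `P` its Picard group, `hG i x` the dimension of `H^i(G, x)`.

`Mbar` is a normal projective variety of dimension `h = h^(2,1)(X)` (helper8's covering): `B` is the
set of its prime divisors `b`. Over the local ring of `b` there are `K`-trivial projective
`Q`-factorial models `XX` of `G` with reduced special fibre `X_b`; `Germ` collects the data of all of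
them (they differ by flops).
-/

/-- The models over the local ring of one prime divisor `b` of the base. -/
structure Germ (P : Type) [AddCommGroup P] where
  /-- the small modifications of one model -/
  Mo : Type
  /-- the group of Weil divisor classes, the same for all models -/
  Lam : Type
  [grp : AddCommGroup Lam]
  /-- the restriction to the geometric generic fibre -/
  rho : Lam →+ P
  /-- nef over the base -/
  Nef : Mo → Lam → Prop
  /-- Cartier -/
  Car : Mo → Lam → Prop
  /-- the restriction to the special fibre `X_b` is semiample -/
  SA : Mo → Lam → Prop
  /-- the dimension of `H^i(X_b, O(x))` -/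
  h : Mo → ℕ → Lam → ℕ

attribute [instance] Germ.grp

namespace Germ

variable {P : Type} [AddCommGroup P]

/-- `RΓ(X_b, O(x)) = 0` for the class `x` on the model `mu` -/
def Acyclic (g : Germ P) (mu : g.Mo) (x : g.Lam) : Prop := ∀ i, g.h mu i x = 0

end Germ

/-- The family over the base. -/
structure Moduli (P : Type) [AddCommGroup P] (NefG : P → Prop) (hG : ℕ → P → ℕ) where
  /-- the prime divisors of the base -/
  B : Type
  germ : B → Germ P
  /-- the intersection number of `b` with the power `h - 1` of the Hodge bundle `λ` -/
  wt : B → ℚ
  /-- the self-intersection number `λ^h` of the Hodge bundle -/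
  top : ℚ
  /-- Griffiths, local Torelli: the Hodge bundle is nef and big -/
  top_pos : 0 < top
  /-- the given smooth model at an interior divisor `b`; one of the models at the others -/
  mu0 : ∀ b, (germ b).Mo
  /-- an additive section of `rho`; the closure of a divisor class of `G` if `b` is interior -/
  lift : ∀ b, P →+ (germ b).Lam
  rho_lift : ∀ b x, (germ b).rho (lift b x) = x
  /-- `b` is an interior divisor: the model `mu0 b` is smooth over the local ring -/
  Int : B → Prop
  car_int : ∀ b x, Int b → (germ b).Car (mu0 b) (lift b x)
  /-- all models are `Q`-factorial -/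
  qfac : ∀ b mu x, ∃ k : ℕ, 0 < k ∧ ∀ j : ℕ, (germ b).Car mu (j • k • x)
  /-- Degree of the determinant of cohomology (Snapper; Knudsen, Mumford; Kollár; Steenbrink): glue
  models over the codimension one points (they exist over a finite covering), `x b` Cartier,
  extending `m L`; the determinant of `R π_* O(k x)` is a line bundle outside codimension two, a
  polynomial of degree at most four in `k`; its intersection number `p k` with `λ^(h-1)` (with the
  power of `λ + ε A`, `A` ample, `ε` to zero: general complete intersection curves meet every `b`
  in general points only) is a polynomial of degree at most four, equal to `λ^h` for `k = 0`; if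
  `k m L` is acyclic on `G` then it is a sum of local contributions, zero at `b` if `k x b` is
  acyclic on `X_b`. -/
  det : ∀ (m : ℕ) (L : P) (S : Finset B) (mu : ∀ b, (germ b).Mo) (x : ∀ b, (germ b).Lam), 0 < m →
    (∀ b, (germ b).rho (x b) = m • L) → (∀ b, (germ b).Car (mu b) (x b)) →
    (∀ b, b ∉ S → Int b ∧ mu b = mu0 b ∧ x b = m • lift b L) →
    ∃ p : Polynomial ℚ, p.natDegree ≤ 4 ∧ p.eval 0 = top ∧
      ∀ k : ℕ, 0 < k → (∀ i, hG i (k • m • L) = 0) →
        ∃ o : B →₀ ℚ, p.eval (k : ℚ) = o.sum (fun b c => c * wt b) ∧
          ∀ b, (germ b).Acyclic (mu b) (k • x b) → o b = 0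

end SIface

section SA

/-!
# MP_5ee2d0_ag, Theorems M and N, section 5: nef classes on a canonical threefold

`Y` is a simply connected projective threefold with canonical singularities, trivial canonical class
and `H^1(O) = H^2(O) = 0`: the threefold `X` itself, or an irreducible special fibre `X_b` of a
`K`-trivial degeneration of `X` (type F; `π_1(X) → π_1(X_b)` is onto), over the complex numbers.
`H` is a very ample class, `S = S_j` a very general member of `|(j + 1) H|`, a surface with Du Val
singularities which contains no curve of the singular locus of `Y`, and `S'` its minimal resolution.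

`CY.of_any`: if `x` is nef, `x ≠ 0` and `H^i(Y, x) ≠ 0` for some `i` then `x` is semiample.
`TypeF.dichotomy`: the same for a germ of type F.
-/

/-- additive maps -/
def Add {A B : Type} [AddCommGroup A] [AddCommGroup B] (f : A → B) : Prop :=
  ∀ x y, f (x + y) = f x + f y

/-- The data of the canonical threefold `Y`. -/
structure Shape where
  /-- the Picard group -/
  P : Type
  /-- the divisor class group -/
  C : Type
  /-- locally free sheaves of rank two -/
  BY : Type
  /-- the Picard group of `S'` -/
  G : ℕ → Type
  /-- the divisor class group of `S` -/
  K : ℕ → Type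
  /-- locally free sheaves of rank two on `S'` -/
  B : ℕ → Type
  [grpP : AddCommGroup P]
  [grpC : AddCommGroup C]
  [grpG : ∀ j, AddCommGroup (G j)]
  [grpK : ∀ j, AddCommGroup (K j)]
  /-- the intersection form -/
  T : P → P → P → ℤ
  /-- the linear form of the Riemann-Roch theorem (the second Chern class of a crepant terminal
  model) -/
  c : P → ℤ
  /-- the dimension of `H^i(Y, x)` -/
  h : Fin 4 → P → ℕ
  /-- nef classes -/
  Nef : P → Prop
  /-- semiample classes -/
  SA : P → Prop
  /-- a very ample class -/
  H : P
  /-- the Weil divisor class of a line bundle -/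
  incl : P → C
  /-- the degree `H^2.y` of a Weil divisor class -/
  deg : C → ℤ
  /-- effective Weil divisor classes -/
  EffC : C → Prop
  /-- the first Chern class -/
  c1 : BY → P
  /-- the degree `c_2(E).H` -/
  c2H : BY → ℤ
  /-- slope stability with respect to `H` -/
  Stable : BY → Prop
  /-- the pull-back of line bundles from `Y` to `S'` -/
  res : ∀ j, P → G j
  /-- the pull-back of sheaves from `Y` to `S'` -/
  resB : ∀ j, BY → B j
  /-- the intersection form of `S'` -/
  I : ∀ j, G j → G j → ℤ
  /-- effective classes of `S'` -/
  Eff : ∀ j, G j → Prop
  /-- the direct image of divisors from `S'` to `S` -/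
  push : ∀ j, G j → K j
  /-- the restriction of Weil divisors from `Y` to `S` -/
  resC : ∀ j, C → K j
  /-- effective classes of `S` -/
  EffK : ∀ j, K j → Prop
  /-- the second Chern class of a sheaf on `S'` -/
  c2 : ∀ j, B j → ℤ
  /-- `Sub j E N F w`: `c_1(E) = N` and there is an exact sequence `0 → O(F) → E → I_W(N - F) → 0` on
  `S'`, `W` of length `w` -/
  Sub : ∀ j, B j → G j → G j → ℕ → Prop

attribute [instance] Shape.grpP Shape.grpC Shape.grpG Shape.grpK

/-- Restriction of divisors to the surfaces `S` and `S'`. -/
structure Shape.Restriction (Y : Shape) : Prop where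
  add_push : ∀ j, Add (Y.push j)
  add_resC : ∀ j, Add (Y.resC j)
  form : ∀ j x y, Y.I j (Y.res j x) (Y.res j y) = (j + 1) * Y.T Y.H x y
  compat : ∀ j x, Y.push j (Y.res j x) = Y.resC j (Y.incl x)
  /-- Lefschetz theorem for the pair `(Y - Sing Y, S - Sing Y)` (Goresky and MacPherson; Ravindra and
  Srinivas): the restriction of divisor classes is injective -/
  inj : ∀ j y, Y.resC j y = 0 → y = 0
  /-- the same theorem for the first and second cohomology groups of `Y - Sing Y` with coefficients
  `ℤ / k`, and the Kummer sequence: the cokernel of the restriction is torsion free -/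
  sat : ∀ j (k : ℤ) z y, k ≠ 0 → k • z = Y.resC j y → ∃ y', z = Y.resC j y'

/-- Divisors on the surfaces `S` and `S'`. -/
structure Shape.Surfaces (Y : Shape) : Prop where
  add_I : ∀ j x, Add (Y.I j x)
  symm : ∀ j x y, Y.I j x y = Y.I j y x
  /-- Hodge index theorem; `H^1(S', O) = 0`, so numerically trivial classes are torsion -/
  index : ∀ j F, Y.I j (Y.res j Y.H) F = 0 → 0 ≤ Y.I j F F → ∃ k : ℤ, k ≠ 0 ∧ k • F = 0
  nef_eff : ∀ j x F, Y.Nef x → Y.Eff j F → 0 ≤ Y.I j (Y.res j x) F
  /-- an effective torsion class is zero -/
  eff_tors : ∀ j F (k : ℤ), Y.Eff j F → k ≠ 0 → k • F = 0 → F = 0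
  push_eff : ∀ j F, Y.Eff j F → Y.EffK j (Y.push j F)
  /-- Chern classes of the sheaves in the exact sequence -/
  chern : ∀ j E N F w, Y.Sub j E N F w → Y.c2 j E = Y.I j F (N - F) + w

/-- Line bundles on `Y`. -/
structure Shape.Lines (Y : Shape) : Prop where
  add_T : ∀ x y, Add (Y.T x y)
  add_c : Add Y.c
  symm12 : ∀ x y z, Y.T x y z = Y.T y x z
  symm23 : ∀ x y z, Y.T x y z = Y.T x z y
  nef_H : Y.Nef Y.H
  nef_mul : ∀ (k : ℤ) x, 0 < k → (Y.Nef (k • x) ↔ Y.Nef x)
  sa_mul : ∀ (k : ℤ) x, 0 < k → (Y.SA (k • x) ↔ Y.SA x)
  sa_zero : Y.SA 0
  /-- intersection numbers of nef classes are not negative -/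
  nonneg : ∀ x y z, Y.Nef x → Y.Nef y → Y.Nef z → 0 ≤ Y.T x y z
  /-- Hodge index theorem and Lefschetz theorem; the Picard group is torsion free because `Y` is
  simply connected -/
  index : ∀ z, Y.T Y.H Y.H z = 0 → Y.T Y.H z z = 0 → z = 0
  /-- Miyaoka -/
  miyaoka : ∀ x, Y.Nef x → 0 ≤ Y.c x

/-- Cohomology of line bundles on `Y`. -/
structure Shape.Cohomology (Y : Shape) : Prop where
  /-- Riemann-Roch theorem -/
  rr : ∀ x, 12 * ((Y.h 0 x : ℤ) - Y.h 1 x + Y.h 2 x - Y.h 3 x) = 2 * Y.T x x x + Y.c x
  /-- Serre duality -/
  serre : ∀ i x, Y.h i (-x) = Y.h (Fin.rev i) x
  h0_neg : ∀ x, Y.Nef x → x ≠ 0 → Y.h 0 (-x) = 0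
  /-- Kawamata-Viehweg vanishing theorem -/
  kv : ∀ x, Y.Nef x → Y.T Y.H x x ≠ 0 → Y.h 2 x = 0
  /-- Keel, Matsuki and McKernan: effective nef classes -/
  kmm : ∀ x, Y.Nef x → Y.h 0 x ≠ 0 → Y.SA x

/-- Weil divisors on `Y`. -/
structure Shape.Weil (Y : Shape) : Prop where
  add_incl : Add Y.incl
  add_deg : Add Y.deg
  deg_incl : ∀ x, Y.deg (Y.incl x) = Y.T Y.H Y.H x
  /-- the divisor class group is finitely generated -/
  tors_fin : {y : Y.C | ∃ k : ℤ, k ≠ 0 ∧ k • y = 0}.Finite
  eff_mul : ∀ (k : ℤ) y, 0 < k → Y.EffC y → Y.EffC (k • y)
  eff_incl : ∀ x, Y.EffC (Y.incl x) → Y.h 0 x ≠ 0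
  /-- Serre, Enriques, Severi and Zariski: `H^1(Y, O(y - (j + 1) H)) = 0` for large `j`; `S` does not
  contain the finitely many points where `O(y)` is not Cohen-Macaulay -/
  lift : ∀ y, ∃ j0 : ℕ, ∀ j, j0 ≤ j → Y.EffK j (Y.resC j y) → Y.EffC y

/-- Vector bundles of rank two on `Y`. -/
structure Shape.Bundles (Y : Shape) : Prop where
  c2_res : ∀ j E, Y.c2 j (Y.resB j E) = (j + 1) * Y.c2H E
  /-- Bogomolov, Donaldson, Uhlenbeck and Yau on a resolution `m : Y' → Y`: for a small `ε > 0` and an
  exceptional divisor `Γ ≥ 0` with `- Γ` relatively ample the pull-back `E'` of a stable `E` is stable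
  for the ample class `m^*H - ε Γ`, and `c_1(E')^2.Γ = c_2(E').Γ = 0` (projection formula); so in the
  case of equality `E'` is projectively flat, hence `End E'` is trivial, because `Y'` is simply
  connected (Takayama), and `E` is not simple (compare Greb, Kebekus and Peternell) -/
  bog : ∀ E, Y.Stable E → Y.T Y.H (Y.c1 E) (Y.c1 E) < 4 * Y.c2H E
  /-- the restriction of a destabilising subsheaf of rank one to `S`, pulled back to `S'` and
  saturated -/
  unstable : ∀ E, ¬ Y.Stable E → ∀ j, ∃ F w, Y.Sub j (Y.resB j E) (Y.res j (Y.c1 E)) F w ∧
    Y.I j (Y.res j Y.H) (Y.res j (Y.c1 E)) ≤ 2 * Y.I j (Y.res j Y.H) F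
  /-- a nonzero element of `H^1(Y, -x)` is a nonsplit extension `E` of `O(x)` by `O`; its restriction
  to `S'` is not split (Kawamata-Viehweg: `H^1(Y, -x - (j + 1) H) = 0`); a subsheaf `O(F)` of positive
  degree maps to `O(x)`, this map is not zero and not an isomorphism -/
  ext : ∀ x, Y.Nef x → Y.h 1 (-x) ≠ 0 → ∃ E, Y.c1 E = x ∧ Y.c2H E = 0 ∧
    ∀ j F w, Y.Sub j (Y.resB j E) (Y.res j x) F w → 0 < Y.I j (Y.res j Y.H) F →
      Y.Eff j (Y.res j x - F) ∧ Y.res j x ≠ F

/-- A simply connected canonical threefold with `K = 0` and `H^1(O) = H^2(O) = 0`. -/
structure CY extends Shape where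
  restriction : toShape.Restriction
  surfaces : toShape.Surfaces
  lines : toShape.Lines
  coh : toShape.Cohomology
  weil : toShape.Weil
  bundles : toShape.Bundles

/-- A germ of type F: for every model the special fibre is irreducible with canonical singularities,
`K = 0` and `H^1(O) = H^2(O) = 0`, and simply connected, since the generic member is simply
connected. (The models are small modifications of one terminal model, so their special fibres have
the same components; inversion of adjunction.) -/
structure TypeF {PX : Type} [AddCommGroup PX] (g : Germ PX) where
  /-- the special fibre of the model -/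
  fib : g.Mo → CY
  /-- the restriction of Cartier classes to the special fibre -/
  cls : ∀ mu, g.Lam → (fib mu).P
  cls_mul : ∀ mu x (j : ℕ), g.Car mu x → g.Car mu (j • x) → cls mu (j • x) = (j : ℤ) • cls mu x
  h_eq : ∀ mu x (i : Fin 4), g.Car mu x → g.h mu i x = (fib mu).h i (cls mu x)
  /-- the special fibre has dimension three -/
  h_top : ∀ mu x i, 4 ≤ i → g.h mu i x = 0
  nef : ∀ mu x, g.Car mu x → g.Nef mu x → (fib mu).Nef (cls mu x)
  sa : ∀ mu x, g.Car mu x → (fib mu).SA (cls mu x) → g.SA mu x

end SA

/-! ## Interior -/

section SInterior

/-- The interior divisors of the base. `Inn b`: `b` is an interior divisor, `NefB b L`: the class `L`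
is nef on the fibre over the general point of `b`. The intersection form of the smooth fibres is the
form of `X`. -/
structure Interior (X : CY) (B : Type) (NefG : X.P → Prop) (Inn : B → Prop)
    (NefB : B → X.P → Prop) where
  /-- a class which is ample on all the smooth fibres -/
  A : X.P
  /-- only finitely many divisors of the base are not interior -/
  bdry : {b : B | ¬ Inn b}.Finite
  /-- `Ruled b E l` : the smooth fibre over a very general point of `b` contains a surface `E`
  ruled over a curve of positive genus with fibre `l`, which does not deform to the generic fibre -/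
  Ruled : B → X.P → (X.P → ℤ) → Prop
  /-- the degree of curves -/
  add : ∀ b E l, Ruled b E l → Add l
  /-- Wilson: the nef cone jumps only through such surfaces -/
  wilson : ∀ b L, Inn b → NefG L → ¬ NefB b L → ∃ E l, Ruled b E l ∧ l L < 0
  /-- a surface has positive degree -/
  pos : ∀ b E l, Ruled b E l → 0 < X.T A A E
  /-- flop of the total space along `E` and semicontinuity: `L + (L.l) E` is pseudoeffective on
  the fibre over `b`, and a pseudoeffective class has nonnegative degree -/
  pseff : ∀ b L E l, Inn b → NefG L → Ruled b E l → l L < 0 → 0 ≤ X.T A A (L + l L • E)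
  /-- boundedness of the Chow variety: surfaces of bounded degree which do not deform to the
  generic fibre lie over finitely many divisors of the base -/
  chow : ∀ n : ℤ, {b | Inn b ∧ ∃ E l, Ruled b E l ∧ X.T A A E ≤ n}.Finite

end SInterior

section SHodge

/-!
# MP_5ee2d0_ag: which boundary divisors meet the Hodge bundle

For a prime divisor `b` of the base let `N` be the logarithm of the local monodromy and `Gr_j` the
graded pieces of the limit mixed Hodge structure on `H^3`. The line `F^3` lies in exactly one
`Gr_(3 + kind b)`, a polarised variation of Hodge structure over an open part of `b`; let `P` be the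
smallest rational sub-variation of it which contains `F^3`. It is irreducible.
-/

/-- Hodge theory of the prime divisors `b` of the base, which has dimension `h`; `wt b` is the
intersection number of `b` with the power `h - 1` of the Hodge bundle. -/
structure HodgeTypes (h : ℕ) (B : Type) (wt : B → ℚ) where
  /-- `F^3` lies in `Gr_(3 + kind b)` -/
  kind : B → ℕ
  /-- the Hodge numbers of `P`, the smallest polarised rational sub-variation of `Gr_(3 + kind b)`
  which contains the line `F^3` -/
  hn : B → ℕ → ℕ → ℕ
  /-- the rank of the period map of the line `F^3` of `P` at a general point of `b` -/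
  rk : B → ℕ
  symm : ∀ b p q, hn b p q = hn b q p
  /-- Hodge numbers of a limit mixed Hodge structure of weight three -/
  le_three : ∀ b p q, 3 < p → hn b p q = 0
  line : ∀ b, hn b 3 (kind b) = 1
  /-- Griffiths: the derivative of the period map of `F^3` has values in `Hom (F^3, F^2 / F^3)` -/
  rk_le : ∀ b, rk b ≤ hn b 2 (kind b + 1)
  /-- Cattani, Kaplan and Schmid; Kollár: the intersection number is the integral of the power
  `h - 1` of the curvature of the line `F^3` of `P` -/
  rank : ∀ b, wt b ≠ 0 → h ≤ rk b + 1
  /-- for `kind b = 1`: the double surfaces of the special fibres are birational to an abelian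
  surface or to a quotient of one -/
  Abel : B → Prop
  /-- Fujino, Kollár, Nicaise, Xu; Steenbrink: for `kind b = 1` the special fibre of a dlt model is a
  chain and `Gr_4` is contained in the sum of the second cohomology groups of the minimal resolutions
  of its double surfaces (birational to one K3 surface or abelian surface). `P` is irreducible, so its
  projection to one on which `F^3` is not zero is injective, with image orthogonal to an ample class;
  the second Betti number is 22 or 6 -/
  k3 : ∀ b, kind b = 1 → hn b 1 3 + hn b 2 2 + hn b 3 1 + 1 ≤ 22
  /-- for the surfaces of abelian type `P` embeds in the second cohomology of the abelian surface -/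
  abel : ∀ b, kind b = 1 → Abel b → hn b 1 3 + hn b 2 2 + hn b 3 1 + 1 ≤ 6

end SHodge

section SRun2

/-!
# MP_5ee2d0_ag, Theorems M and N: termination of the steps over one prime divisor of the base

Setting. `XX → Δ` is a projective `Q`-factorial model over the local ring of a prime divisor `b` of
the base, with trivial canonical class and reduced special fibre `X_b = V_0 ∪ .. ∪ V_r`. Either
`r = 0`, `XX` is terminal and the fibre is irreducible with canonical singularities; or `r > 0` and
the fibre is a chain of components glued along surfaces `D` birational to one surface with `K = 0`;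
then `XX` is terminal outside the surfaces `D` and locally `u v = t^e` at general points of `D`
(`e = 1` for dlt terminal models, `r = 1` is the case of two components). `L` is a nef and `H`
an ample class of the generic fibre, `N` a rational class on `XX` extending `L` which is a limit of
movable classes. The minimal model program for `N + d H`, `d` tending to `0` from above, is a sequence
of small `K`-trivial steps; step `j` takes place at the threshold `d j`, and
`p^* N_j = q^* N_(j+1) + E_j`, `p^* H_j = q^* H_(j+1) - E_j / d_j` with `E_j` effective, its support
being the preimage of the locus of the step (negativity lemma).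

This file shows that there is no infinite sequence of such steps. Three kinds of arguments:
* on a surface `D`: the classes `E_j | D` are effective, lie in a fixed lattice and have bounded sum;
* for the prime divisors over a component `V`: multiplicities along divisors of a model are integers;
* steps which are small on every component increase the sum of the cubes `(N | V)^3`, which is the
  constant `L^3`.
-/

open Filter Topology

/-- The thresholds of an infinite sequence of steps. -/
structure Thr (d : ℕ → ℝ) : Prop where
  /-- only positive thresholds occur -/
  pos : ∀ j, 0 < d j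
  /-- the program runs with decreasing `d` -/
  anti : Antitone d
  /-- `N + d H` is big for `d > 0`: above a positive `d` there are only finitely many steps
  (Birkar-Cascini-Hacon-McKernan) -/
  lim : Tendsto d atTop (𝓝 0)

/-- The restriction of the steps to one double surface `D` of a fibre of type II. All the surfaces
`D^(j)` have Du Val singularities (or are smooth) and the same minimal resolution `D~`. -/
structure DRun (d : ℕ → ℝ) where
  /-- the real Néron-Severi space of `D~` -/
  V : Type
  [grp : AddCommGroup V]
  [mod : Module ℝ V]
  /-- the Néron-Severi lattice of `D~` -/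
  NS : AddSubgroup V
  /-- the degree with respect to a fixed ample divisor -/
  deg : V →ₗ[ℝ] ℝ
  /-- effective classes -/
  Eff : V → Prop
  /-- nef classes -/
  Nef : V → Prop
  deg_int : ∀ x ∈ NS, ∃ z : ℤ, deg x = z
  /-- a nonzero effective divisor has positive degree -/
  deg_eff : ∀ x, Eff x → x ≠ 0 → 0 < deg x
  deg_nef : ∀ x, Nef x → 0 ≤ deg x
  /-- the pull backs to `D~` of the restrictions of `N`, `H` and `E_j` -/
  N : ℕ → V
  H : ℕ → V
  G : ℕ → V
  /-- `p^* N_j = q^* N_(j+1) + E_j` -/
  stepN : ∀ j, N (j + 1) = N j - G j
  /-- `p^* H_j = q^* H_(j+1) - E_j / d_j`: the step is trivial on `N + d_j H` -/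
  stepH : ∀ j, H (j + 1) = H j + (1 / d j) • G j
  /-- `N_j + d_j H_j` is nef on the special fibre of the `j`-th model -/
  nef : ∀ j, Nef (N j + d j • H j)
  eff : ∀ j, Eff (G j)
  /-- the locus of the step meets `D` -/
  meets : ℕ → Prop
  /-- `E_j | D~` is nonzero if the locus meets `D`: `D` is not contained in the locus, since the
  components of the locus are uniruled (Kawamata 1991) and `D` has trivial canonical class; for the
  same reason the pair stays dlt and all `D^(j)` have the same minimal resolution -/
  ne : ∀ j, meets j → G j ≠ 0
  /-- a bound for the denominators -/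
  m : ℕ
  m_pos : 0 < m
  /-- `N` is rational; outside finitely many points of `D` the local class groups of `XX_j` are
  cyclic of order dividing `e`, so `e` times an integral divisor restricts to an integral Weil
  divisor on `D`; the orders of the local class groups of Du Val points on surfaces with minimal
  resolution `D~` are bounded -/
  lattice : ∀ j, m • G j ∈ NS

attribute [instance] DRun.grp DRun.mod

/-- A common resolution `W` of two successive models of a component on which the step is small:
`A = p^* N_j`, `B = q^* N_(j+1)`, `a = A^3`, `b = B^3`. The numbers `T x y z` are the intersection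
numbers of classes on `W`. -/
structure Flop (a b : ℝ) where
  /-- the Néron-Severi group of `W`, with real coefficients -/
  W : Type
  sub : W → W → W
  /-- the intersection numbers -/
  T : W → W → W → ℝ
  T_sub : ∀ x y z w, T (sub x y) z w = T x z w - T y z w
  symm₁ : ∀ x y z, T x y z = T y x z
  symm₂ : ∀ x y z, T x y z = T x z y
  A : W
  B : W
  cubeA : T A A A = a
  cubeB : T B B B = b
  /-- `E = A - B` is mapped to curves by `p` and by `q` (projection formula) -/
  AAE : T A A (sub A B) = 0
  BBE : T B B (sub A B) = 0
  /-- `-E` is ample over the base of the step on the normalised graph, and `E` is effective, nonzero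
  and lies over finitely many points of it -/
  EEE : 0 < T (sub A B) (sub A B) (sub A B)

/-- One component `V` of the fibre; all steps are disjoint from the double surfaces on `V`.
`Y` is a `Q`-factorial terminalisation of the first model of `V`; the models of `V` are crepant
birational off the double surfaces, so their prime divisors are prime divisors of `Y`. -/
structure CompRun (d : ℕ → ℝ) where
  /-- the prime divisors of `Y` other than the strict transforms of the double surfaces -/
  Dv : Type
  /-- the degree with respect to the square of an ample divisor of `Y` -/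
  wt : Dv → ℝ
  one_le_wt : ∀ G, 1 ≤ wt G
  /-- `G` is a divisor on the `j`-th model of `V` -/
  on : ℕ → Dv → Prop
  /-- the centre of `G` on the `j`-th model lies in the locus of the step -/
  exc : ℕ → Dv → Prop
  /-- the multiplicity in `G` of the restriction to `V` of a fixed integral divisor in the class `L`
  which does not contain `V` (the components of the fibre are trivial off the double surfaces) -/
  mult : ℕ → Dv → ℝ
  /-- outside the double surfaces the models `XX_j` are smooth in codimension two -/
  int : ∀ j G, on j G → ∃ z : ℤ, mult j G = z
  /-- `E_j` is effective (negativity lemma) -/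
  anti : ∀ j G, mult (j + 1) G ≤ mult j G
  /-- its support is the preimage of the locus -/
  exc_lt : ∀ j G, exc j G → mult (j + 1) G < mult j G
  /-- outside the locus the step is an isomorphism -/
  keep : ∀ j G, ¬ exc j G → (on j G ↔ on (j + 1) G)
  /-- `E_j` has finitely many components -/
  supp : ∀ j, {G | mult (j + 1) G ≠ mult j G}.Finite
  /-- the Picard number of `Y` -/
  rho : ℕ
  /-- the prime divisors of `Y` which are exceptional over the `j`-th model are finitely many and
  independent in the Néron-Severi group -/
  off_fin : ∀ j, {G | ¬ on j G}.Finite
  off_le : ∀ j, {G | ¬ on j G}.ncard ≤ rho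
  /-- the degrees of (the push forwards to `Y` of) `N_j`, `H_j` -/
  n : ℕ → ℝ
  h : ℕ → ℝ
  /-- `p^* N_j = q^* N_(j+1) + E_j` -/
  stepn : ∀ j, n (j + 1) = n j - ∑ᶠ G, (mult j G - mult (j + 1) G) * wt G
  /-- `p^* H_j = q^* H_(j+1) - E_j / d_j` -/
  steph : ∀ j, h (j + 1) = h j + (∑ᶠ G, (mult j G - mult (j + 1) G) * wt G) / d j
  /-- `N_j + d_j H_j` is nef on the `j`-th model, so its push forward to `Y` is pseudoeffective -/
  nef : ∀ j, 0 ≤ n j + d j * h j
  /-- the locus of the step meets `V` -/
  moves : ℕ → Prop
  /-- the cube of `N_j` on the `j`-th model of `V` -/
  cube : ℕ → ℝ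
  cube_eq : ∀ j, ¬ moves j → cube (j + 1) = cube j
  /-- a step which contracts no divisor of the `j`-th and of the `(j+1)`-st model of `V` -/
  small : ∀ j, moves j → (∀ G, exc j G → ¬ on j G ∧ ¬ on (j + 1) G) →
    Nonempty (Flop (cube j) (cube (j + 1)))

/-- An infinite sequence of steps disjoint from the double surfaces. -/
structure Tail (d : ℕ → ℝ) where
  /-- the components of the fibre -/
  I : Type
  [fin : Fintype I]
  comp : I → CompRun d
  /-- the locus of a step is not empty -/
  move : ∀ j, ∃ i, (comp i).moves j
  /-- `Σ (N | V_i)^3 = L^3` -/
  cube : ℝ
  sum_cube : ∀ j, ∑ i, (comp i).cube j = cube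

attribute [instance] Tail.fin

/-- An infinite sequence of steps over a fibre which is irreducible (`Z` empty) or of type II. -/
structure ChainRun where
  d : ℕ → ℝ
  thr : Thr d
  /-- the double surfaces -/
  Z : Type
  [fin : Finite Z]
  onD : Z → DRun d
  /-- if no step after the `k`-th meets a double surface: the sequence from the `k`-th model on -/
  tail : ∀ k, (∀ j, k ≤ j → ∀ z, ¬ (onD z).meets j) → Nonempty (Tail fun j => d (k + j))

attribute [instance] ChainRun.fin

end SRun2

section SNef

/-!
# MP_5ee2d0_ag: a nef class of the generic fibre has a nef extension on some model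

`XX → Δ` is a `K`-trivial projective `Q`-factorial model over the local ring of a prime divisor `b` of
the base, `(XX, X_b)` is log canonical, `X_b` is reduced: irreducible, or a chain of components glued
along surfaces birational to one surface with `K = 0`. `XX` is terminal outside the double surfaces,
and locally `u v = t^e` at their general points.
-/

open Filter Topology

/-- The divisor classes of the models `XX` over the local ring of one prime divisor of the base. -/
structure DivSpace {P : Type} [AddCommGroup P] (g : Germ P) where
  /-- the components of the special fibre, all but one of them; the special fibre is connected and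
  the sum of all its components is zero -/
  I : Type
  [fin : Fintype I]
  /-- the class of a component -/
  V : I → g.Lam
  /-- the components do not meet the generic fibre -/
  rho_V : ∀ i, g.rho (V i) = 0
  /-- the real classes of divisors up to numerical equivalence over the base, the same space for all
  small modifications of `XX` -/
  N : Type
  [grpN : NormedAddCommGroup N]
  [spN : NormedSpace ℝ N]
  cl : g.Lam →+ N
  /-- an ample class of `XX` -/
  H : N

attribute [instance] DivSpace.fin DivSpace.grpN DivSpace.spN

/-- the real class `x - Σ s_i V_i + d H` -/
noncomputable def DivSpace.tw {P : Type} [AddCommGroup P] {g : Germ P} (D : DivSpace g)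
    (x : g.Lam) (s : D.I → ℝ) (d : ℝ) : D.N :=
  D.cl x - ∑ i, s i • D.cl (D.V i) + d • D.H

/-- Movable classes of the models over the local ring of one prime divisor of the base. -/
structure NefGerm {P : Type} [AddCommGroup P] (g : Germ P) (NefG : P → Prop) extends
    DivSpace g where
  /-- the closed movable cone: limits of classes of divisors a multiple of which has no fixed
  components -/
  Mov : Set N
  closed : IsClosed Mov
  add_mem : ∀ x y, x ∈ Mov → y ∈ Mov → x + y ∈ Mov
  smul_mem : ∀ (r : ℝ) x, 0 ≤ r → x ∈ Mov → r • x ∈ Mov
  H_mem : H ∈ Mov
  /-- Zariski's lemma (negativity lemma): a movable class with support in the special fibre is zero;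
  otherwise its restriction to a component with the largest coefficient is not pseudoeffective -/
  neg : ∀ s, toDivSpace.tw 0 s 0 ∈ Mov → s = 0
  /-- `L + (1/n) H` is ample on the generic fibre; so the fixed components of a large multiple of it
  are components of the special fibre -/
  gen : ∀ x, NefG (g.rho x) → ∀ n : ℕ, 0 < n → ∃ s, toDivSpace.tw x s (1 / n) ∈ Mov
  /-- Covering families of curves of components `V'` of special fibres of small modifications `XX'`
  of `XX`, such that the class of the curves generates an extremal ray of `XX'` which has a divisorial
  contraction, given by a morphism `V' → W`. For `dim W = 2` take a general fibre of `V' → W`, for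
  `dim W = 1` extremal rational curves in a general fibre; for `dim W = 0` the component `V'` is an
  end of the chain, glued along one surface `D`, an ample divisor on `V'`, and we take the class `D.D`
  on `V'`, a positive rational multiple of the class of the complete intersections of two members of
  a multiple of `D`. -/
  Fam : Type
  /-- the intersection number -/
  deg : Fam → N → ℝ
  deg_add : ∀ F x y, deg F (x + y) = deg F x + deg F y
  deg_smul : ∀ F (r : ℝ) x, deg F (r • x) = r * deg F x
  /-- the curves cover a divisor of a small modification -/
  deg_mov : ∀ F x, x ∈ Mov → 0 ≤ deg F x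
  /-- Birkar, Cascini, Hacon and McKernan: let `M` be ample on the generic fibre, so big. The minimal
  model program for `M` stops. If it has only small steps then `M` is semiample on a small
  modification, so movable; otherwise the first divisorial contraction contracts a component of the
  special fibre, the curves of which have negative degree. -/
  rays : ∀ x, NefG (g.rho x) → ∀ s (d : ℝ), 0 < d → (∀ F, 0 ≤ deg F (toDivSpace.tw x s d)) →
    toDivSpace.tw x s d ∈ Mov
  /-- a common denominator of the intersection numbers with integral classes. In dimension four `XX'`
  is, outside the double surfaces, smooth outside curves, along which transversal slices are Gorenstein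
  terminal threefolds, and `Q`-Cartier divisors of these are Cartier (Kawamata). At all but finitely
  many points of a double surface the local class group is cyclic of order `e`, so `e` times an
  integral class is Cartier there. General members of the families with `dim W > 0` avoid the finitely
  many points that are left. For `dim W = 0` the degree of `x` is the intersection number of `x|D` and
  `D|D`, and `e` times an integral class restricts to a Weil divisor of `D`, a surface with Du Val
  singularities the minimal resolution of which does not depend on the model. -/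
  m : ℕ
  m_pos : 0 < m
  int : ∀ F x, ∃ z : ℤ, m * deg F (cl x) = z
  /-- a bound for the intersection numbers with the components. Let `e` be the exponent along the
  double surfaces on `V'`; adjunction gives `V'|V' = - (1/e) D = (1/e) K_V'` for an end of the chain,
  and in general `V'.F` lies between `K_V'.F` and 0. So `-V'.F ≤ 6` for `dim W > 0` (Kawamata, length of
  extremal rays), while for `dim W = 0` it is at most the degree `(-K_V')^3` of a klt Fano threefold of
  bounded index (Borisov, Alexeev): the index one cover of `V'` at a point of `D` restricts to a cover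
  of `D` which is étale outside the point, of degree at most the order of the local fundamental group
  of a Du Val point of a surface with the given minimal resolution. The intersection numbers with the
  other components are not negative, and the sum of all is zero. -/
  c : ℕ
  bound : ∀ F i, |deg F (cl (V i))| ≤ c
  /-- Birkar, Cascini, Hacon and McKernan: the minimal model program for `x + d H`, `d` tending to
  zero, has only small steps since these classes are in the interior of the movable cone, and only
  finitely many of them over an interval bounded away from zero. If it stops then `x` is nef on the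
  last model; otherwise its steps give the data of `ChainRun`, all fields of which are published facts
  about an infinite sequence of steps, see there. That there is no infinite sequence is not assumed
  but proved (`ChainRun.false`). -/
  mmp : ∀ L, NefG L → ∀ (k : ℕ) (x : g.Lam), 0 < k → g.rho x = k • L →
    (∀ d : ℝ, 0 < d → toDivSpace.tw x 0 d ∈ Mov) →
    (∃ mu, g.Nef mu x) ∨ Nonempty ChainRun
  nef_nsmul : ∀ mu x (k : ℕ), g.Nef mu x → g.Nef mu (k • x)

end SNef

section SDeriv

/-! Lifting of a fibration of a degenerate fibre to its infinitesimal neighbourhoods: the derivation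
argument. -/

/-- The direct images of the structure sheaves of the infinitesimal neighbourhoods of a fibre.

Geometry. `𝒳 → Spec R` is a flat projective family of threefolds over a complete discrete valuation
ring `R ⊇ K` with uniformizer `t` and residue field `K` of characteristic zero, `X₀` its closed
fibre, `X_n = 𝒳 mod t^(n+1)`, and `g : X₀ → B` a morphism onto a normal projective surface with
`g_* O = O`. `Op` is the set of affine open subsets of `B`, `A n U = Γ(g⁻¹ U, O_{X_n})` and
`M U = Γ(U, R¹ g_* O_{X₀}) = H¹(g⁻¹ U, O_{X₀})`; there are no symmetries `T`.

The same formalism is used for a torsor `Y` of a torus `T` over `𝒳`: there `X_n` is replaced by its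
preimage in `Y`, functions of weight `χ` being sections of a divisorial sheaf `O(χ)`, `T` acts by the
weights and the constants may contain sections of the sheaves `O(χ)` which are defined on all of
`𝒳`. -/
structure Thick where
  /-- the constants -/
  K : Type
  /-- the affine open subsets of `B` -/
  Op : Type
  /-- inclusion of open subsets -/
  le : Op → Op → Prop
  /-- the ring of functions on the part of `X_n` over `U` -/
  A : ℕ → Op → Type
  [ring : ∀ n U, CommRing (A n U)]
  /-- sections of `R¹ g_* O_{X₀}` -/
  M : Op → Type
  [addM : ∀ U, AddCommGroup (M U)]
  /-- constant functions -/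
  const : ∀ n U, K → A n U
  /-- restriction of functions to a smaller open set -/
  res : ∀ n V U, le V U → A n U → A n V
  /-- restriction of cohomology classes to a smaller open set -/
  resM : ∀ V U, le V U → M U → M V
  /-- restriction from `X_(n+1)` to `X_n` -/
  red : ∀ n U, A (n + 1) U → A n U
  red_const : ∀ n U c, red n U (const (n + 1) U c) = const n U c
  /-- multiplication by `t`, the isomorphism of `O_{X_n}` with the ideal `t O_{X_(n+1)}` -/
  mul_t : ∀ n U, A n U → A (n + 1) U
  /-- restriction from `X_n` to `X₀` -/
  pr : ∀ n U, A n U → A 0 U
  pr_add : ∀ n U a b, pr n U (a + b) = pr n U a + pr n U b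
  pr_mul : ∀ n U a b, pr n U (a * b) = pr n U a * pr n U b
  pr_zero : ∀ U a, pr 0 U a = a
  pr_succ : ∀ n U a, pr (n + 1) U a = pr n U (red n U a)
  pr_res : ∀ n V U h a, pr n V (res n V U h a) = res 0 V U h (pr n U a)
  /-- `t a` computed on `X_(n+1)` depends only on the restriction of `a` to `X_n` -/
  mul_t_red : ∀ n U a, mul_t n U (red n U a) = mul_t n U 1 * a
  /-- the function `t` restricts to the function `t` -/
  red_mul_t : ∀ n U, red (n + 1) U (mul_t (n + 1) U 1) = mul_t n U 1
  /-- exactness of `0 → O_{X_n} → O_{X_(n+1)} → O_{X₀} → 0` and left exactness of `g_*` -/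
  ker_pr : ∀ n U a, pr (n + 1) U a = 0 ↔ ∃ b, mul_t n U b = a
  /-- multiplication of a cohomology class by a function -/
  sm : ∀ U, A 0 U → M U → M U
  sm_zero : ∀ U a, sm U a 0 = 0
  zero_sm : ∀ U m, sm U 0 m = 0
  /-- the connecting homomorphism of `0 → O_{X₀} → O_{X_(n+1)} → O_{X_n} → 0` -/
  δ : ∀ n U, A n U → M U
  δ_add : ∀ n U a b, δ n U (a + b) = δ n U a + δ n U b
  δ_res : ∀ n V U h a, δ n V (res n V U h a) = resM V U h (δ n U a)
  /-- exactness of the long sequence of direct images -/
  exact : ∀ n U a, δ n U a = 0 ↔ ∃ b, red n U b = a
  /-- the connecting homomorphism of a square zero extension of sheaves of rings is a derivation -/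
  δ_mul : ∀ n U a b, δ n U (a * b) = sm U (pr n U a) (δ n U b) + sm U (pr n U b) (δ n U a)
  /-- the symmetries -/
  T : Type
  act : ∀ n U, T → A n U → A n U
  actM : ∀ U, T → M U → M U
  pr_act : ∀ n U τ a, pr n U (act n U τ a) = act 0 U τ (pr n U a)
  δ_act : ∀ n U τ a, δ n U (act n U τ a) = actM U τ (δ n U a)
  /-- There is no nonzero derivation `O_B → R¹ g_* O_{X₀}` over `K`.

  Sources. All strata of the semi-log-canonical variety `X₀` dominate `B` and `ω_{X₀} = O`, so
  `R^q g_* O_{X₀} = R^q g_* ω_{X₀}` is torsion free (Kollár 1986; Ambro 2003, Fujino 2011 for normal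
  crossing and semi-log-canonical varieties), duality gives `R¹ g_* O_{X₀} = ω_B`, hence the
  derivations are the sections of `Hom(Ω_B, ω_B) = Ω_B^[1]`, and reflexive one-forms of `B` pull back
  to holomorphic one-forms of a smooth model of `X₀`, or of compatible ones on smooth models of the
  components of `X₀` (Greb, Kebekus, Kovács, Peternell 2011), of which there are none since
  `H¹(X₀, O) = 0`. -/
  rigid : ∀ D : ∀ U, A 0 U → M U, (∀ U a b, D U (a + b) = D U a + D U b) →
    (∀ V U h a, D V (res 0 V U h a) = resM V U h (D U a)) →
    (∀ U a b, D U (a * b) = sm U a (D U b) + sm U b (D U a)) →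
    (∀ U c, D U (const 0 U c) = 0) → (∀ U τ a, D U (act 0 U τ a) = actM U τ (D U a)) →
    ∀ U a, D U a = 0

attribute [instance] Thick.ring Thick.addM

/-- A semiample class on a degenerate fibre whose image is a surface.

`X₀ ⊂ 𝒳` is the closed fibre of a projective family over the complete discrete valuation ring `R`
with Calabi-Yau generic fibre, `X₀` irreducible and canonical, or a chain of components as in type
II, with `K = 0`; `N` is a divisor class of `𝒳` whose restriction to `X₀` is semiample with a
surface as image, and `g : X₀ → B` is the contraction defined by it: `N = g^*` of an ample class,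
numerically. `covered` says that the geometric generic fibre is covered by curves `C` with
`N.C = 0`. -/
structure FibreSurface (covered : Prop) extends Thick where
  /-- a dense set of smooth points `p` of `B` over which `g` is flat -/
  Pt : Type
  /-- an affine neighbourhood of `p` -/
  nb : Pt → Op
  /-- local parameters at `p` on this neighbourhood, with no other common zero than `p`: the curve
  `Z_p = g⁻¹ p` is given by `u p = v p = 0` in `X₀` -/
  u : ∀ p, A 0 (nb p)
  v : ∀ p, A 0 (nb p)
  /-- Hilbert schemes (Grothendieck), local criterion of flatness, Artin approximation. If `U n`,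
  `V n` are compatible lifts of `u p`, `v p` to all `X_n`, then the subschemes `U n = V n = 0` of
  `X_n` are flat over `R / t^(n+1)` and compatible, a point of the Hilbert scheme of `𝒳 / R` with
  values in `R`. So `Z_p` is the specialization of a curve of the geometric generic fibre, of degree
  `N.Z_p = 0` with respect to `N`. If this holds for all `p` in a dense set, then these curves cover
  the generic fibre, because their specializations cover `X₀`. -/
  hilb : (∀ p, ∃ U V : ∀ n, A n (nb p), U 0 = u p ∧ V 0 = v p ∧
    ∀ n, red n (nb p) (U (n + 1)) = U n ∧ red n (nb p) (V (n + 1)) = V n) → covered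

end SDeriv

section SSurf

/-! Semiampleness in numerical dimension two passes from the special fibre to the generic fibre. -/

/-- The comparison of the special fibre `X_b` with the geometric generic fibre `G` for classes of
numerical dimension two. `Two L` says that `L³ = 0` and `L² ≠ 0` numerically on `G`; `Dom mu x` says
that every component of `X_b` and every double surface is mapped onto the image of the contraction of
`X_b` defined by the semiample class `x` (no condition if `X_b` is irreducible). -/
structure SurfaceGerm {P : Type} [AddCommGroup P] (g : Germ P) (NefG SAG Two : P → Prop)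
    (Dom : g.Mo → g.Lam → Prop) where
  /-- the covering families of curves of `G`, up to numerical equivalence -/
  Fam : Type
  /-- the degree of a divisor class on the curves of a family -/
  deg : P → Fam → ℤ
  deg_mul : ∀ (n : ℕ) L C, deg (n • L) C = n * deg L C
  /-- the contraction `X_b → B` defined by a semiample class and its direct images -/
  fib : ∀ (mu : g.Mo) (x : g.Lam), g.SA mu x → Two (g.rho x) → Dom mu x →
    Nonempty (FibreSurface (∃ C, deg (g.rho x) C = 0))
  /-- Nef reduction (Bauer, Campana, Eckl, Kebekus, Peternell, Rams, Szemberg, Wotzlaw 2002): if
  `L.C = 0` for a covering family and `L³ = 0`, `L² ≠ 0` then `L` is, on a modification, the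
  pull-back of a nef and big class of a surface; so `L` has Iitaka dimension two and is semiample
  (Kawamata 1985). -/
  semi : ∀ L, NefG L → Two L → (∃ C, deg L C = 0) → SAG L

end SSurf

section SPeriod

/-!
# MP_5ee2d0_ag, Theorem N: deformation of a fibration of the special fibre by periods

Let `pi : XX -> Delta` be a `K`-trivial model over the local ring of a prime divisor `b` of the base
of the family, with special fibre `X_b` (irreducible canonical, or slc with double surfaces) and
geometric generic fibre `G`, a Calabi-Yau threefold with `H^1(O) = 0`. Let `N` be nef on `X_b`,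
extending `L` on `G`, `L^2 = 0`, and let `g : X_b -> C` be a fibre space over a curve with
`N` numerically the pull-back of an ample class. `Z` is a general fibre, `B0` the open set of `C`
over which everything is locally trivial; all strata of `X_b` are mapped onto `C`, `X_b` is smooth or
normal crossing near `Z`, and `XX` is smooth there or `x y = t^m` along the double surface (log smooth
over `Delta`). `T` is the nearby fibre of `Z`: a compact oriented `4`-manifold in `X_t`, and these
manifolds form a fibre bundle over (a compact part of) `B0` (Ehresmann, Clemens).

The new argument: `H^1(T, ℂ)` has no invariants under `π_1(B0)`, because `H^1(X_b, ℂ) = 0`; hence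
the class of the holomorphic three-form `Omega_t` of `X_t` restricted to `T`, an invariant element of
`H^3(T, ℂ)`, is zero for all `t`; its Taylor coefficients are the obstructions to lifting the
fibration `g`, so `g` lifts to all orders and a fibre of `g` deforms to `G`.

All maps between the cohomology groups are linear; only what is used is recorded.
-/

/-- The local systems of the fibration `g : X_b -> C` and of its nearby fibres. -/
structure LocalSystems where
  /-- loops in `B0` -/
  Loop : Type
  /-- `H^1(X_b, ℂ)` -/
  HX : Type
  /-- `H^1(Z, ℂ)` -/
  HZ : Type
  /-- `H^1(T, ℂ)` -/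
  HT : Type
  /-- `H^3(T, ℂ)` -/
  HT3 : Type
  [zeroX : Zero HX]
  [zeroZ : Zero HZ]
  [zeroT : Zero HT]
  [zeroT3 : Zero HT3]
  /-- the monodromy actions -/
  actZ : Loop → HZ → HZ
  actT : Loop → HT → HT
  act3 : Loop → HT3 → HT3
  /-- `h^1(X_b, O)` -/
  irr : ℕ
  /-- `H^1(X_b, ℂ)` has weights `0` and `1`, and `H^1(X_b, ℂ) -> H^1(X_b, O)` is onto with kernel
  conjugate to a part of `H^1(X_b, O)` (Du Bois; Kollár, Kovács: slc varieties are Du Bois) -/
  du_bois : irr = 0 → ∀ x : HX, x = 0
  /-- restriction -/
  res : HX → HZ
  res_zero : res 0 = 0
  /-- theorem of the fixed part: an invariant class on `Z` is the restriction of a class of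
  `g^-1(B0)` (Leray: `B0` is affine), and by strictness of one of weight at most one, which is the
  restriction of a class of `X_b` (Deligne, Hodge II and III): the components of `X_b` and the double
  surfaces are klt and are mapped onto `C` -/
  fixed_part : ∀ a : HZ, (∀ s, actZ s a = a) → ∃ x : HX, res x = a
  /-- specialisation -/
  sp : HZ → HT
  sp_zero : sp 0 = 0
  sp_act : ∀ s a, sp (actZ s a) = actT s (sp a)
  sp_injective : ∀ a a', sp a = sp a' → a = a'
  /-- the logarithm of the monodromy of `T` around `b` (zero if `X_b` is smooth along `Z`) -/
  mon : HT → HT
  mon_act : ∀ s a, mon (actT s a) = actT s (mon a)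
  mon_mon : ∀ a, mon (mon a) = 0
  /-- local invariant cycle theorem (Clemens, Schmid, Steenbrink, Deligne) -/
  ker_mon : ∀ a : HT, mon a = 0 → ∃ z : HZ, sp z = a
  /-- the inverse of the isomorphism `H^1(T, ℂ) -> H^3(T, ℂ)` given by the restriction of a
  polarisation: hard Lefschetz for the (log smooth) projective surface `Z` (Steenbrink, Guillén,
  Navarro Aznar, Saito) -/
  lef : HT3 → HT
  lef_act : ∀ s a, lef (act3 s a) = actT s (lef a)
  lef_eq_zero : ∀ a, lef a = 0 → a = 0

attribute [instance] LocalSystems.zeroX LocalSystems.zeroZ LocalSystems.zeroT LocalSystems.zeroT3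

/-- The periods of the holomorphic three-form on `T` and the obstructions to lifting the fibration
`g : X_b -> C`. -/
structure Lifting (S : LocalSystems) where
  /-- small parameters `t` different from `0`, in a sector -/
  Par : Type
  /-- the class in `H^3(T, ℂ)` of the holomorphic three-form `Omega_t` of `X_t`, restricted to `T` -/
  om : Par → S.HT3
  /-- it is the restriction of a class on `X_t`, and the manifolds `T` form a bundle over `B0` in
  `X_t` (Ehresmann; Clemens) -/
  om_act : ∀ t s, S.act3 s (om t) = om t
  /-- Taylor coefficients at `t = 0` of `om`, in the canonical extension (the logarithmic de Rham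
  cohomology) -/
  coef : ℕ → S.HT3
  coef_zero : (∀ t, om t = 0) → ∀ n, coef n = 0
  /-- liftings of `g`, over a disc of `B0`, to `XX` modulo `t^(n+1)` -/
  Lift : ℕ → Type
  trunc : ∀ n, Lift (n + 1) → Lift n
  /-- `g` itself -/
  g : Lift 0
  /-- sections over the disc of `R^1 g_* O`, a locally free sheaf -/
  Ob : Type
  [zeroO : Zero Ob]
  /-- the obstruction to lifting one step further -/
  ob : ∀ n, Lift n → Ob
  lift : ∀ n x, ob n x = 0 → ∃ y : Lift (n + 1), trunc n y = x
  /-- the points of the disc -/
  Pt : Type
  /-- at the point `p`: cup product with the generator of `H^0(Z_p, Ω^2(log))` given by `Omega`, in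
  `H^1(Z_p, Ω^2(log))`, a subspace of `H^3(T, ℂ)` -/
  val : Pt → Ob → S.HT3
  /-- `R^1 g_* O` is locally free and commutes with base change; `K` is trivial on `Z_p`; the Hodge
  spectral sequence degenerates (Hodge, Deligne, Steenbrink) -/
  val_injective : ∀ o, (∀ p, val p o = 0) → o = 0
  /-- if the fibration is lifted to order `n`, the Taylor coefficient of `t^(n+1)` is given by the
  obstruction, up to sign (Bloch, Ran, Voisin: semiregularity). Let `g_i` be local lifts to order
  `n + 1`, `g_i - g_j = t^(n+1) o_ij`, `ρ_i` a partition of unity; move `T` to the zeros of
  `Σ ρ_i g_i`. There `g_i = t^(n+1) φ_i`, `φ_i = Σ ρ_j o_ij`, and `Omega = dg_i ∧ η_i` with a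
  (logarithmic) two-form `η_i`, so `Omega` restricts to `t^(n+1) dφ_i ∧ η_i`, of class `± ob ∪ η` -/
  taylor : ∀ n x p, coef (n + 1) = val p (ob n x)

attribute [instance] Lifting.zeroO

/-- The special fibre `X_b` with the nef class `N`, extending `L`, fibred over a curve; `P` is the
Picard group of the geometric generic fibre `G`, and `Eff z` says that the class `z` is effective. -/
structure FibredFibre (P : Type) [AddCommGroup P] (Eff : P → Prop) (L : P) where
  S : LocalSystems
  F : Lifting S
  /-- `h^1(X_b, O) = h^1(G, O) = 0`: Du Bois -/
  irr : S.irr = 0
  /-- intersection numbers on `G` with an ample class `A`: `x.A.A` and `x.y.A` -/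
  deg : P → ℤ
  form : P → P → ℤ
  deg_add : ∀ x y, deg (x + y) = deg x + deg y
  form_add : ∀ x y z, form x (y + z) = form x y + form x z
  form_symm : ∀ x y, form x y = form y x
  /-- Hodge index theorem; numerically trivial classes are torsion because `H^1(G, O) = 0` -/
  index : ∀ x, deg x = 0 → 0 ≤ form x x → ∃ k : ℕ, 0 < k ∧ k • x = 0
  /-- `L^2 = 0`, `L ≠ 0` numerically -/
  L_sq : form L L = 0
  L_pos : 0 < deg L
  /-- If `g` lifts to all orders then the fibres `Z` over the points of a disc lift to the completion
  of `XX` (Grothendieck), the Hilbert scheme of `XX` over `Delta` dominates `Delta` at the points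
  `[Z]`, and `G` contains surfaces `Z_t` of class `z` specialising to them (the same class for
  uncountably many points, the Picard group is countable); different ones are disjoint, so
  `Z_t^2 = 0`, and `L.Z_t.A = N.Z.A = 0` -/
  spread : (∃ x : ∀ n, F.Lift n, x 0 = F.g ∧ ∀ n, F.trunc n (x (n + 1)) = x n) →
    ∃ z : P, Eff z ∧ 0 < deg z ∧ form z z = 0 ∧ form L z = 0
  /-- multiples of effective divisors are effective -/
  eff : ∀ (z : P) (n : ℕ), Eff z → Eff (n • z)

end SPeriod

section SCurve

/-! Numerical dimension one: a class which is semiample on the special fibre has an effective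
multiple on the generic fibre. -/

/-- The comparison of the special fibre `X_b` with the geometric generic fibre `G` for classes of
numerical dimension one. `c` is the degree of the second Chern class of `G`, `One L` says that
`L` has numerical dimension one on `G` (`L^2 = 0`, `L ≠ 0` numerically), `Dom mu x` that every
component of `X_b` and every double surface is mapped onto the image of the contraction of `X_b`
defined by the semiample class `x` (no condition if `X_b` is irreducible). -/
structure CurveGerm {P : Type} [AddCommGroup P] (g : Germ P) (c : P → ℚ) (One : P → Prop)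
    (Dom : g.Mo → g.Lam → Prop) (hG : ℕ → P → ℕ) where
  /-- A nef and semiample class `x` on `X_b`, of numerical dimension one and with `c.x = 0` on `G`,
  defines a fibre space of `X_b` over a curve. The Euler characteristics of the multiples of `x` are
  zero, so (additivity) the general fibre `Z`, with `K = 0` and at most Du Val and normal crossing
  singularities, has `χ(O) = 0`: a smooth abelian surface, or a cycle of ruled surfaces over elliptic
  curves; `X_b` is smooth or normal crossing near `Z`, and `XX` is smooth, or `x y = t^m` along the
  double surface, near `Z` (the residue of the three-form of `V_i` along `V_0 ∩ V_1` changes its sign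
  under the covering involution of a conic bundle, so no component of `Z` is glued to itself along a
  bisection). -/
  fib : ∀ (mu : g.Mo) (x : g.Lam), g.Nef mu x → g.SA mu x → c (g.rho x) = 0 → One (g.rho x) →
    Dom mu x → Nonempty (FibredFibre P (fun z => 0 < hG 0 z) (g.rho x))

end SCurve

section STypeTwo

/-!
# MP_5ee2d0_ag, Theorems M and N: special fibres with two components

The special fibre is `X_b = V_0 ∪ V_1`, two normal threefolds meeting along a normal surface whose
minimal resolution `D` is a K3 surface, and which is not a quotient of an abelian surface. A class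
`x` which is nef on some model and with `c_2.x = 0` on the general fibre is semiample on `X_b`, and all
strata of `X_b` are mapped onto the image.
-/

/-- Nef classes and automorphisms of a K3 surface `D`: `N` is its Picard group tensored with `ℚ`. A
multiple of a nef class `n` defines a morphism from `D` onto a normal projective variety `Y`, and is the
pull back of an ample invertible sheaf `O(1)` of `Y`. -/
structure K3 (N : Type) [AddCommGroup N] where
  /-- the self-intersection number -/
  sq : N → ℚ
  Nef : N → Prop
  nonneg : ∀ n, Nef n → 0 ≤ sq n
  /-- the closed points of `Y` -/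
  Base : N → Type
  /-- the automorphisms of `(Y, O(1))` which are induced by automorphisms of `D` -/
  Lin : N → Type
  [grpLin : ∀ n, Group (Lin n)]
  /-- the action on `Y` -/
  act : ∀ n, Lin n → Base n → Base n
  act_one : ∀ n p, act n 1 p = p
  act_mul : ∀ n u v p, act n (u * v) p = act n u (act n v p)
  /-- an automorphism of `(Y, O(1))` over the identity of `Y` is the multiplication by a scalar -/
  central : ∀ n u, (∀ p, act n u p = p) → ∀ v, u * v = v * u
  /-- the automorphisms of a K3 surface which fix a nef and big class are a finite group -/
  finite : ∀ n, Nef n → 0 < sq n → ∃ S : Finset (Lin n), ∀ u, ∃ v ∈ S, act n u = act n v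
  /-- the critical values of the elliptic fibration given by a nef class of square zero -/
  crit : ∀ n, Finset (Base n)
  crit_act : ∀ n u, ∀ p ∈ crit n, act n u p ∈ crit n
  /-- an elliptic fibration of a K3 surface over the projective line has at least three singular
  fibres -/
  three : ∀ n, Nef n → n ≠ 0 → sq n = 0 →
    ∃ p ∈ crit n, ∃ q ∈ crit n, ∃ r ∈ crit n, p ≠ q ∧ p ≠ r ∧ q ≠ r
  /-- an automorphism of the projective line with three fixed points is the identity -/
  moebius : ∀ n, Nef n → n ≠ 0 → sq n = 0 → ∀ u p q r, p ≠ q → p ≠ r → q ≠ r →
    act n u p = p → act n u q = q → act n u r = r → ∀ s, act n u s = s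

attribute [instance] K3.grpLin

/-- The germ of the family at a prime divisor `b` of the base with two components `V_i` of the special
fibre `X_b`, `i = false` or `true`. The models are `Q`-factorial with canonical singularities,
`(XX, X_b)` is log canonical, `XX` is terminal outside `V_0 ∩ V_1` and locally `u v = t^e` at its
general points, the `V_i` are klt and meet in a normal surface with Du Val singularities
whose minimal resolution `D` is a K3 surface (the same for all models) and whose orbifold Euler number
is positive. `c` is the degree of the second Chern class of the general fibre, and `Dom mu x` says that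
the `V_i` and their intersection are mapped onto the image of the contraction of `X_b` which is given by
the semiample class `x`. -/
structure TypeTwo {P : Type} [AddCommGroup P] (g : Germ P) (c : P → ℚ)
    (Dom : g.Mo → g.Lam → Prop) where
  N : Type
  [grpN : AddCommGroup N]
  D : K3 N
  /-- the class of the component `V_i` -/
  V : Bool → g.Lam
  /-- the degree of the second orbifold Chern class of the sheaf of logarithmic 1-forms of
  `(V_i, V_0 ∩ V_1)` -/
  c2 : g.Mo → Bool → g.Lam → ℚ
  /-- the sum of the degrees on the curves of Du Val singularities of `V_i`, each multiplied by the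
  difference of the Euler number of the Milnor fibre and the inverse of the order of the local
  fundamental group -/
  sing : g.Mo → Bool → g.Lam → ℚ
  /-- additivity of Chern classes in a degeneration. `K + V_0 ∩ V_1` is Cartier on `V_i` and `V_i` is
  `ℚ`-Cartier, so `V_i` is smooth, and `XX` is `uv = t^m`, at the general points of all curves of
  `V_0 ∩ V_1` -/
  c_eq : ∀ mu x, c (g.rho x) =
    c2 mu false x + c2 mu true x + (sing mu false x + sing mu true x)
  c2_add : ∀ mu i (j : ℕ) x y, c2 mu i (j • x + y) = j * c2 mu i x + c2 mu i y
  /-- Miyaoka inequality for the log Calabi-Yau pair `(V_i, V_0 ∩ V_1)` (Kawamata, Megyesi) -/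
  miyaoka : ∀ mu i x, g.Nef mu x → 0 ≤ c2 mu i x
  sing_nonneg : ∀ mu i x, g.Nef mu x → 0 ≤ sing mu i x
  /-- `V_i` restricted to `V_i` is a negative multiple of `V_0 ∩ V_1`; the degree on this surface of
  the second Chern class of the logarithmic 1-forms is at least its orbifold Euler number
  (adjunction; at a singular point the inverse of the order of the local fundamental group may be
  replaced by a larger number), which is positive -/
  c2_neg : ∀ mu i, c2 mu i (V i) < 0
  /-- the pull back of the restriction to the K3 surface -/
  res : g.Mo → g.Lam → N
  res_nef : ∀ mu x, g.Nef mu x → D.Nef (res mu x)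
  /-- models on which `x` is nef are connected by flops of curves of degree zero -/
  res_indep : ∀ mu mu' x, g.Nef mu x → g.Nef mu' x → res mu x = res mu' x
  /-- the restriction to `V_i` is numerically trivial -/
  Zero : g.Mo → Bool → g.Lam → Prop
  zero_indep : ∀ mu mu' i x, g.Nef mu x → g.Nef mu' x → Zero mu i x → Zero mu' i x
  zero_res : ∀ mu i x, Zero mu i x → res mu x = 0
  /-- numerically trivial classes on `X_b` are torsion since `H^1(O) = 0` -/
  zero_sa : ∀ mu x, g.Nef mu x → (∀ i, Zero mu i x) → g.SA mu x
  /-- the degree of `x` on curves is constant in the family -/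
  zero_tors : ∀ mu x, g.Nef mu x → (∀ i, Zero mu i x) → ∃ k : ℕ, 0 < k ∧ k • g.rho x = 0
  /-- `V_i` has a Mori fibration over a curve (the anticanonical divisor is relatively ample, and
  proportional to `V_0 ∩ V_1`), and `x` is on `V_i` the pull back of a nef class -/
  DelPezzo : g.Mo → Bool → g.Lam → Prop
  /-- the same over a surface -/
  Conic : g.Mo → Bool → g.Lam → Prop
  /-- cone theorem, existence of flips (Birkar, Cascini, Hacon and McKernan) and termination for the
  threefold `V_i`: if `j x + V_i` is not nef for all `j`, on all models on which `x` is nef, then after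
  flops of curves of degree zero there is a Mori fibration over a point, a curve or a surface -/
  mmp : ∀ mu i x, g.Nef mu x → (∀ mu', g.Nef mu' x → ∀ j : ℕ, ¬ g.Nef mu' (j • x + V i)) →
    ∃ mu', g.Nef mu' x ∧ (Zero mu' i x ∨ DelPezzo mu' i x ∨ Conic mu' i x)
  /-- over a curve, `x` is a multiple `a F` of a general fibre; if `a ≠ 0` and no curve of singular
  points has positive degree, then `F` is a smooth del Pezzo surface, with positive Euler number `e`,
  and meets `V_0 ∩ V_1` in a smooth elliptic curve -/
  delPezzo : ∀ mu i x, g.Nef mu x → DelPezzo mu i x → sing mu i x = 0 →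
    ∃ a e : ℚ, 0 < e ∧ c2 mu i x = a * e ∧ (a = 0 → Zero mu i x)
  /-- `V_0 ∩ V_1` is mapped onto the surface -/
  conic_zero : ∀ mu i x, Conic mu i x → res mu x = 0 → Zero mu i x
  /-- `Cover mu i x n l`: `V_i` is a conic bundle over a surface `S`, `x` is on `V_i` the pull back of
  a class of `S`, `n` is its restriction to `D`, and the covering involution of `D → S` induces the
  automorphism `l` of the image of `D` and of its line bundle -/
  Cover : g.Mo → Bool → g.Lam → (n : N) → D.Lin n → Prop
  /-- a multiple of `x` is on `V_i` the pull back of an invertible sheaf of `S` -/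
  cover : ∀ mu i x n, Conic mu i x → res mu x = n → ∃ l, Cover mu i x n l ∧ l * l = 1
  /-- Kollár: gluing by a finite equivalence relation. The restrictions of `x` to `V_i` are semiample
  since nef classes of K3 surfaces are. If the two involutions generate a finite group `G` then
  the quotient `Y/G` is the image of `X_b`, and a power of `O(1)` descends to it. -/
  glue : ∀ mu x, g.Nef mu x → ∀ mu0 l0 mu1 l1, g.Nef mu0 x → g.Nef mu1 x →
    Cover mu0 false x (res mu x) l0 → Cover mu1 true x (res mu x) l1 →
    (∃ k : ℕ, 0 < k ∧ (l0 * l1) ^ k = 1) → g.SA mu x
  /-- `V_0 ∩ V_1` is mapped onto the bases of the conic bundles -/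
  onto : ∀ mu x, g.SA mu x → ∀ mu0 mu1, g.Nef mu0 x → g.Nef mu1 x →
    Conic mu0 false x → Conic mu1 true x → Dom mu x

attribute [instance] TypeTwo.grpN

end STypeTwo

/-! ## Join -/

section SJoin

/-- The geometric generic member `G` of the family of the deformations of the threefold `X`; its
Picard group is the Picard group of `X`. -/
structure Generic (X : CY) where
  /-- nef classes of `G` -/
  Nef : X.P → Prop
  /-- semiample classes of `G` -/
  SA : X.P → Prop
  /-- the dimension of `H^i(G, x)` -/
  h : ℕ → X.P → ℕ
  /-- ample classes of `X` are ample on `G`, nef classes are limits of ample ones -/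
  nef : ∀ x, X.Nef x → Nef x
  /-- semicontinuity -/
  semi : ∀ (i : Fin 4) x, h i x ≤ X.h i x
  top : ∀ i x, 4 ≤ i → h i x = 0
  sa : ∀ x, SA x → ∃ k : ℕ, 0 < k ∧ h 0 (k • x) ≠ 0

/-- the class has numerical dimension two, if it is nef -/
def CY.Two (X : CY) (x : X.P) : Prop :=
  X.T x x x = 0 ∧ ∃ z, X.T x x z ≠ 0

/-- the class has numerical dimension one, if it is nef; numerically trivial classes are zero since
`X` is simply connected -/
def CY.One (X : CY) (x : X.P) : Prop := x ≠ 0 ∧ ∀ z, X.T x x z = 0

/-- the degree of the second Chern class, as a rational number -/
def CY.cQ (X : CY) (x : X.P) : ℚ := X.c x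

/-- The germ at the prime divisor `b` of the base: the type of the special fibres. -/
structure Fibre {X : CY} (G : Generic X) (g : Germ X.P) (kind : ℕ) (Abel : Prop) where
  /-- every component of `X_b` and every double surface is mapped onto the image of the contraction
  which is given by the semiample class `x`; no condition if `X_b` is irreducible -/
  Dom : g.Mo → g.Lam → Prop
  /-- Wang, Tosatti, Takayama: if `F^3` lies in `Gr_3` then there are models with an irreducible
  canonical special fibre -/
  one : kind = 0 → TypeF g
  dom : kind = 0 → ∀ mu x, Dom mu x
  /-- if `F^3` lies in `Gr_4` there are dlt models whose special fibre is a chain; the middle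
  components are contracted by the minimal model program for `(XX, ε Σ V_j)` -/
  two : kind = 1 → ¬ Abel → TypeTwo g X.cQ Dom
  nef : kind = 0 ∨ (kind = 1 ∧ ¬ Abel) → NefGerm g G.Nef
  surf : kind = 0 ∨ (kind = 1 ∧ ¬ Abel) → SurfaceGerm g G.Nef G.SA X.Two Dom
  curve : kind = 0 ∨ (kind = 1 ∧ ¬ Abel) → CurveGerm g X.cQ X.One Dom G.h

/-- The family of the deformations of the simply connected threefold `X`, `h21 = h^(2,1)(X)`: the
base `Mbar` is a finite covering of a compactification of the moduli space, of dimension `h21`
(Bogomolov, Tian, Todorov). -/
structure Setup (X : CY) (h21 : ℕ) where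
  gen : Generic X
  mod : Moduli X.P gen.Nef gen.h
  hodge : HodgeTypes h21 mod.B mod.wt
  interior : Interior X mod.B gen.Nef mod.Int
    fun b L => (mod.germ b).Nef (mod.mu0 b) (mod.lift b L)
  /-- no monodromy -/
  int_kind : ∀ b, mod.Int b → hodge.kind b = 0
  fibre : ∀ b, Fibre gen (mod.germ b) (hodge.kind b) (hodge.Abel b)

end SJoin

section SSplit

/-! Reduction to the irreducible factors: `X` is a projective manifold of any dimension with
`K_X ~ 0` and `H^1(X, O_X) = 0`. By Beauville and Bogomolov there is a finite étale Galois covering
`X' → X` with group `G` and `X' = A × Y_1 × ... × Y_n`, where `A` is an abelian variety and the `Y_i`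
are simply connected: K3 surfaces, and strict Calabi-Yau or hyperkähler manifolds of dimension at
least three. -/

/-- A nef line bundle `M` on `A`, invariant under `G`: the restriction of a line bundle of `X`. `K`
is the largest abelian subvariety on which `M` is numerically trivial (the neutral component of the
kernel of `φ_M : A → Pic^0(A)`). The group `G` acts on `A` (Beauville: the vector fields of the `Y_i`
are zero), on `Pic^0(K)` and on the tangent spaces. -/
structure Flat (G : Type) [Group G] [Fintype G] where
  /-- `Pic^0(K)` -/
  Z : Type
  [grpZ : AddCommGroup Z]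
  act : G → Z → Z
  /-- `H^1(A, O_A)` and `H^1(K, O_K)`, the tangent spaces of `Pic^0(A)` and `Pic^0(K)` -/
  W : Type
  V : Type
  [grpW : AddCommGroup W]
  [grpV : AddCommGroup V]
  actW : G → W → W
  actV : G → V → V
  add_W : ∀ g, Add (actW g)
  mul_W : ∀ g g' w, actW (g * g') w = actW g (actW g' w)
  /-- the restriction is onto (Poincaré's complete reducibility) and equivariant -/
  r : W → V
  add_r : Add r
  r_onto : Function.Surjective r
  r_act : ∀ g w, r (actW g w) = actV g (r w)
  /-- `H^1(X, O_X) = 0` is the space of invariants of `H^1(X', O_(X')) = H^1(A, O_A)` -/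
  inv : ∀ w, (∀ g, actW g w = w) → w = 0
  /-- an endomorphism of an abelian variety with vanishing differential is zero -/
  rigid : (∀ v, ∑ g, actV g v = 0) → ∀ z, ∑ g, act g z = 0
  /-- the restriction of `M` to `K`; it does not depend on the translate of `K`, and `M` is
  invariant -/
  p : Z
  p_inv : ∀ g, act g p = p

attribute [instance] Flat.grpZ Flat.grpW Flat.grpV

/-- The data of `X` and `X' = A × Y_1 × ... × Y_n`. -/
structure Split where
  /-- the Picard groups of `X`, of `A` and of the `Y_i` -/
  P : Type
  R : Type
  I : Type
  Q : I → Type
  /-- nef and semiample classes -/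
  Nef : P → Prop
  SA : P → Prop
  saA : R → Prop
  nefY : ∀ i, Q i → Prop
  saY : ∀ i, Q i → Prop
  /-- restriction of the pull back to the factors -/
  res : ∀ i, P → Q i
  resA : P → R
  nef_res : ∀ x i, Nef x → nefY i (res i x)
  /-- The pull back of `x` is the sum of its restrictions to the factors (`Y_i` is simply connected),
  and semiampleness descends along finite coverings (norm). -/
  descent : ∀ x, (∀ i, saY i (res i x)) → saA (resA x) → SA x
  G : Type
  [grpG : Group G]
  [finG : Fintype G]
  /-- If a multiple of the restriction of `M` to `K` is trivial, a multiple of `M` is the pull back of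
  an ample line bundle on `A/K`. -/
  flat : ∀ x, Nef x → ∃ F : Flat G, ∀ n : ℕ, 0 < n → n • F.p = 0 → saA (resA x)

attribute [instance] Split.grpG Split.finG

end SSplit

/-! ## Final -/

section SFinal

/-- `X` is a projective manifold of any dimension with `K_X ~ 0` and `H^1(X, O_X) = 0`; each
irreducible factor `Y_i` of a finite étale covering of `X` is an abelian variety, a K3 surface or a
simply connected threefold. -/
structure Given extends Split where
  /-- `Y_i` is a threefold; the others are K3 surfaces -/
  Thr : I → Prop
  /-- Saint-Donat -/
  k3 : ∀ i, ¬ Thr i → ∀ y, nefY i y → saY i y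
  /-- the Hodge number of the threefold -/
  h21 : I → ℕ
  thr : ∀ i, Thr i → CY
  setup : ∀ i hi, Setup (thr i hi) (h21 i)
  /-- the divisor classes -/
  cls : ∀ i hi, Q i → (thr i hi).P
  nef_cls : ∀ i hi y, nefY i y → (thr i hi).Nef (cls i hi y)
  sa_cls : ∀ i hi y, (thr i hi).SA (cls i hi y) → saY i y

end SFinal

end Pool.Agent.H48.LM
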