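import Pool.Agent.H48.LM.Defs

namespace Pool.Agent.H48.LM

section SIface

namespace Germ

variable {P : Type} [AddCommGroup P]

/-- some extension `x` of a positive multiple of `L` is a Cartier class on some model such that all
the positive multiples of `x` are acyclic on `X_b` -/
def Good (g : Germ P) (L : P) : Prop :=
  ∃ (mu : g.Mo) (k : ℕ) (x : g.Lam), 0 < k ∧ g.rho x = k • L ∧
    ∀ j : ℕ, 0 < j → g.Car mu (j • x) ∧ g.Acyclic mu (j • x)

end Germ

namespace Moduli

variable {P : Type} [AddCommGroup P] {NefG : P → Prop} {hG : ℕ → P → ℕ} (M : Moduli P NefG hG)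

/-- The determinant argument: a nef class `L` of the generic member all whose positive multiples are
acyclic cannot be good at all the prime divisors `b` with `λ^(h-1).b ≠ 0`. -/
theorem exists_bad (L : P)
    (hfin : {b | ¬ (M.Int b ∧ (M.germ b).Nef (M.mu0 b) (M.lift b L))}.Finite) (hac : ∀ k : ℕ, 0 < k → ∀ i, hG i (k • L) = 0)
    (hstd : ∀ b, M.Int b → (M.germ b).Nef (M.mu0 b) (M.lift b L) → ∀ k : ℕ, 0 < k →
      (M.germ b).Acyclic (M.mu0 b) (k • M.lift b L))
    (hgood : ∀ b, M.wt b ≠ 0 → (M.germ b).Good L) : False := by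
  classical
  -- the finite set of the exceptional divisors
  let S : Finset M.B := hfin.toFinset
  have hS : ∀ b, b ∉ S → M.Int b ∧ (M.germ b).Nef (M.mu0 b) (M.lift b L) := by
    intro b hb
    by_contra hcon
    exact hb (hfin.mem_toFinset.2 hcon)
  -- at every `b` an extension of a multiple of `L` with all multiples Cartier, good if possible
  have hch : ∀ b : M.B, ∃ (mu : (M.germ b).Mo) (k : ℕ) (x : (M.germ b).Lam), 0 < k ∧
      (M.germ b).rho x = k • L ∧ (∀ j : ℕ, 0 < j → (M.germ b).Car mu (j • x)) ∧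
      (M.wt b ≠ 0 → ∀ j : ℕ, 0 < j → (M.germ b).Acyclic mu (j • x)) := by
    intro b
    by_cases hb : M.wt b = 0
    · obtain ⟨k, hk, hj⟩ := M.qfac b (M.mu0 b) (M.lift b L)
      refine ⟨M.mu0 b, k, k • M.lift b L, hk, ?_, fun j _ => hj j, fun h => absurd hb h⟩
      rw [map_nsmul, M.rho_lift]
    · obtain ⟨mu, k, x, hk, hx, hj⟩ := hgood b hb
      exact ⟨mu, k, x, hk, hx, fun j h => (hj j h).1, fun _ j h => (hj j h).2⟩
  choose mu k x hk hx hcar hacy using hch
  -- a common multiple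
  let m : ℕ := ∏ b ∈ S, k b
  have hm : 0 < m := Finset.prod_pos fun b _ => hk b
  have hdvd : ∀ b ∈ S, ∃ c : ℕ, 0 < c ∧ c * k b = m := by
    intro b hb
    obtain ⟨c, hc⟩ := Finset.dvd_prod_of_mem k hb
    refine ⟨c, ?_, by rw [mul_comm]; exact hc.symm⟩
    rcases Nat.eq_zero_or_pos c with h0 | h0
    · exfalso
      rw [h0, mul_zero] at hc
      have : m = 0 := hc
      omega
    · exact h0
  choose! c hc0 hc using hdvd
  let mu' : ∀ b, (M.germ b).Mo := fun b => if b ∈ S then mu b else M.mu0 b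
  let x' : ∀ b, (M.germ b).Lam := fun b => if b ∈ S then c b • x b else m • M.lift b L
  have hrho : ∀ b, (M.germ b).rho (x' b) = m • L := by
    intro b
    by_cases hb : b ∈ S
    · simp only [x', hb, if_true]
      rw [map_nsmul, hx, smul_smul, hc b hb]
    · simp only [x', hb, if_false]
      rw [map_nsmul, M.rho_lift]
  have hcar' : ∀ b, (M.germ b).Car (mu' b) (x' b) := by
    intro b
    by_cases hb : b ∈ S
    · simp only [x', mu', hb, if_true]
      exact hcar b _ (hc0 b hb)
    · simp only [x', mu', hb, if_false]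
      rw [← map_nsmul]
      exact M.car_int b _ (hS b hb).1
  obtain ⟨p, hdeg, hp0, hp⟩ := M.det m L S mu' x' hm hrho hcar' (fun b hb =>
    ⟨(hS b hb).1, by simp only [mu', hb, if_false], by simp only [x', hb, if_false]⟩)
  -- all values at positive integers vanish
  have hzero : ∀ n : ℕ, 0 < n → p.eval (n : ℚ) = 0 := by
    intro n hn
    obtain ⟨o, ho, ho'⟩ := hp n hn (fun i => by rw [smul_smul]; exact hac _ (Nat.mul_pos hn hm) i)
    rw [ho, Finsupp.sum]
    refine Finset.sum_eq_zero fun b _ => ?_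
    by_cases hw : M.wt b = 0
    · rw [hw, mul_zero]
    · have : o b = 0 := by
        apply ho'
        by_cases hb : b ∈ S
        · simp only [x', mu', hb, if_true]
          rw [smul_smul]
          exact hacy b hw _ (Nat.mul_pos hn (hc0 b hb))
        · simp only [x', mu', hb, if_false]
          rw [smul_smul]
          exact hstd b (hS b hb).1 (hS b hb).2 _ (Nat.mul_pos hn hm)
      rw [this, zero_mul]
  have hpz : p = 0 := by
    refine Polynomial.eq_zero_of_infinite_isRoot p ?_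
    refine Set.infinite_of_injective_forall_mem (f := fun n : ℕ => ((n + 1 : ℕ) : ℚ)) ?_ ?_
    · intro a b hab
      have h : ((a + 1 : ℕ) : ℚ) = ((b + 1 : ℕ) : ℚ) := hab
      have h' : a + 1 = b + 1 := by exact_mod_cast h
      omega
    · intro n
      exact hzero (n + 1) (Nat.succ_pos n)
  have htop := M.top_pos
  rw [← hp0, hpz] at htop
  simp at htop

end Moduli

end SIface

section SA

section

variable {A B : Type} [AddCommGroup A] [AddCommGroup B] {f : A → B}

lemma Add.zsmul (h : Add f) (k : ℤ) (x : A) : f (k • x) = k • f x :=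
  map_zsmul (AddMonoidHom.mk' f h) k x

lemma Add.sub (h : Add f) (x y : A) : f (x - y) = f x - f y :=
  map_sub (AddMonoidHom.mk' f h) x y

end

namespace CY

variable (D : CY)

private lemma deg_pos (x : D.P) (hx : D.Nef x) (hx0 : x ≠ 0) (hsq : D.T D.H x x = 0) :
    0 < D.T D.H D.H x := by
  rcases (D.lines.nonneg _ _ _ D.lines.nef_H D.lines.nef_H hx).eq_or_lt with h | h
  · exact absurd (D.lines.index x h.symm hsq) hx0
  · exact h

private lemma I_sub (j : ℕ) (a b c : D.G j) : D.I j (a - b) c = D.I j a c - D.I j b c := by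
  rw [D.surfaces.symm, (D.surfaces.add_I j c).sub, D.surfaces.symm j c a, D.surfaces.symm j c b]

private lemma I_smul (j : ℕ) (k : ℤ) (a c : D.G j) : D.I j (k • a) c = k * D.I j a c := by
  rw [D.surfaces.symm, (D.surfaces.add_I j c).zsmul, D.surfaces.symm j c a, smul_eq_mul]

/-- If `x` is nef, `x^2 = 0` and `H^1(Y, -x) ≠ 0` then a positive rational multiple `y` of `x`, at
most one half of `x`, is a Weil divisor class with effective restriction to `S`. -/
theorem destab (x : D.P) (hx : D.Nef x) (hsq : D.T D.H x x = 0) (hpos : 0 < D.T D.H D.H x)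
    (h1 : D.h 1 (-x) ≠ 0) (j : ℕ) :
    ∃ (y : D.C) (a b : ℤ), 0 < b ∧ 2 * b ≤ a ∧ a • y = b • D.incl x ∧
      D.EffK j (D.resC j y) := by
  obtain ⟨E, hE1, hE2, hE⟩ := D.bundles.ext x hx h1
  have hst : ¬ D.Stable E := by
    intro hs
    have h2 := D.bundles.bog E hs
    rw [hE1, hE2, hsq] at h2
    simp at h2
  obtain ⟨F, w, hF, hdeg⟩ := D.bundles.unstable E hst j
  rw [hE1] at hdeg hF
  have hch := D.surfaces.chern j _ _ F w hF
  rw [D.bundles.c2_res, hE2, mul_zero] at hch
  have hE := hE j F w hF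
  have hAN : 0 < D.I j (D.res j D.H) (D.res j x) := by
    rw [D.restriction.form]
    exact mul_pos (by positivity) hpos
  have hNN : D.I j (D.res j x) (D.res j x) = 0 := by rw [D.restriction.form, hsq, mul_zero]
  obtain ⟨hZ, hne⟩ := hE (by linarith)
  obtain ⟨Z, hZd⟩ : ∃ Z, Z = D.res j x - F := ⟨_, rfl⟩
  have hFd : F = D.res j x - Z := by rw [hZd]; abel
  have hS := D.surfaces.add_I j
  rw [← hZd] at hZ hch
  have hZ0 : Z ≠ 0 := by
    rw [hZd]
    exact sub_ne_zero.2 hne
  have e1 := D.surfaces.nef_eff j x Z hx hZ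
  have e2 := D.surfaces.nef_eff j D.H Z D.lines.nef_H hZ
  rw [hFd, D.I_sub, D.surfaces.symm j Z] at hch
  rw [hFd, (hS _).sub] at hdeg
  have hw : (0 : ℤ) ≤ (w : ℤ) := Int.natCast_nonneg w
  have hZZ : D.I j (D.res j x) Z ≤ D.I j Z Z := by linarith
  have e3 : 0 < D.I j (D.res j D.H) Z := by
    rcases e2.eq_or_lt with h | h
    · obtain ⟨k, hk, hkZ⟩ := D.surfaces.index j Z h.symm (e1.trans hZZ)
      exact absurd (D.surfaces.eff_tors j Z k hZ hk hkZ) hZ0
    · exact h
  obtain ⟨a, ha⟩ : ∃ a, a = D.I j (D.res j D.H) (D.res j x) := ⟨_, rfl⟩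
  obtain ⟨b, hb⟩ : ∃ b, b = D.I j (D.res j D.H) Z := ⟨_, rfl⟩
  rw [← ha] at hdeg hAN
  rw [← hb] at hdeg e3
  have hab : 2 * b ≤ a := by linarith
  -- the class `a Z - b x` is orthogonal to `H` and has square at least zero
  obtain ⟨k, hk, hkY⟩ : ∃ k : ℤ, k ≠ 0 ∧ k • (a • Z - b • D.res j x) = 0 := by
    apply D.surfaces.index
    · rw [(hS _).sub, (hS _).zsmul, (hS _).zsmul, ← ha, ← hb, smul_eq_mul, smul_eq_mul, mul_comm,
        sub_self]
    · have e4 : D.I j (a • Z - b • D.res j x) (a • Z - b • D.res j x) =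
          a * a * D.I j Z Z - 2 * a * b * D.I j (D.res j x) Z +
            b * b * D.I j (D.res j x) (D.res j x) := by
        have e6 := fun u => (hS u).sub
        have e7 := fun u => (hS u).zsmul
        simp only [D.I_sub, D.I_smul, e6, e7, smul_eq_mul]
        rw [D.surfaces.symm j Z (D.res j x)]
        ring
      rw [e4, hNN, mul_zero, add_zero]
      have e5 : a * a * D.I j (D.res j x) Z ≤ a * a * D.I j Z Z :=
        mul_le_mul_of_nonneg_left hZZ (mul_self_nonneg a)
      have e6 : 0 ≤ a * (a - 2 * b) * D.I j (D.res j x) Z :=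
        mul_nonneg (mul_nonneg hAN.le (by linarith)) e1
      linarith
  have hkk : 0 < k * k := mul_self_pos.2 hk
  have hZx : (k * k * a) • Z = (k * k * b) • D.res j x := by
    have h2 : (k * k * a) • Z - (k * k * b) • D.res j x =
        k • (k • (a • Z - b • D.res j x)) := by
      simp only [smul_sub, smul_smul, mul_assoc]
    rw [hkY, smul_zero] at h2
    exact sub_eq_zero.1 h2
  have hka : 0 < k * k * a := mul_pos hkk hAN
  have hkb : 0 < k * k * b := mul_pos hkk e3
  have hpush : (k * k * a) • D.push j Z = D.resC j ((k * k * b) • D.incl x) := by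
    rw [← (D.restriction.add_push j).zsmul, hZx, (D.restriction.add_push j).zsmul,
      (D.restriction.add_resC j).zsmul, D.restriction.compat]
  obtain ⟨y, hy⟩ := D.restriction.sat j _ _ _ hka.ne' hpush
  refine ⟨y, k * k * a, k * k * b, hkb, ?_, ?_, ?_⟩
  · have := mul_le_mul_of_nonneg_left hab hkk.le
    linarith
  · have h3 : D.resC j ((k * k * a) • y - (k * k * b) • D.incl x) = 0 := by
      rw [(D.restriction.add_resC j).sub, (D.restriction.add_resC j).zsmul, ← hy, hpush, sub_self]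
    exact sub_eq_zero.1 (D.restriction.inj j _ h3)
  · rw [← hy]
    exact D.surfaces.push_eff j _ hZ

/-- the set of the Weil divisor classes `y` with `a y = b x`, `0 < 2 b ≤ a`, is finite -/
private lemma fin_set (x : D.P) (hpos : 0 < D.T D.H D.H x) :
    {y : D.C | ∃ a b : ℤ, 0 < b ∧ 2 * b ≤ a ∧ a • y = b • D.incl x}.Finite := by
  have key : ∀ (y : D.C) (a b : ℤ), a • y = b • D.incl x →
      a * D.deg y = b * D.T D.H D.H x := by
    intro y a b h
    have h1 := congrArg D.deg h
    rw [D.weil.add_deg.zsmul, D.weil.add_deg.zsmul, D.weil.deg_incl, smul_eq_mul,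
      smul_eq_mul] at h1
    exact h1
  refine Set.Finite.of_finite_fibers (f := fun y => D.deg y) ?_ ?_
  · refine (Set.finite_Icc (0 : ℤ) (D.T D.H D.H x)).subset ?_
    rintro _ ⟨y, ⟨a, b, hb, hab, h⟩, rfl⟩
    have h1 := key y a b h
    have ha : 0 < a := by linarith
    constructor
    · by_contra hcon
      push Not at hcon
      have h2 : a * D.deg y < 0 := mul_neg_of_pos_of_neg ha hcon
      have h3 : 0 < b * D.T D.H D.H x := mul_pos hb hpos
      linarith
    · by_contra hcon
      push Not at hcon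
      nlinarith
  · rintro _ ⟨y, ⟨a, b, hb, hab, h⟩, rfl⟩
    refine (D.weil.tors_fin.image fun t => y + t).subset ?_
    rintro y' ⟨⟨a', b', hb', hab', h'⟩, heq⟩
    simp only [Set.mem_preimage, Set.mem_singleton_iff] at heq
    refine ⟨y' - y, ?_, add_sub_cancel y y'⟩
    have h1 := key y a b h
    have h2 := key y' a' b' h'
    rw [heq] at h2
    have h3 : a' * b = a * b' := by
      have h4 : D.T D.H D.H x * (a' * b - a * b') = 0 := by
        have h5 : a' * (b * D.T D.H D.H x) = a * (b' * D.T D.H D.H x) := by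
          rw [← h1, ← h2]; ring
        linarith
      rcases mul_eq_zero.1 h4 with h5 | h5
      · exact absurd h5 hpos.ne'
      · linarith
    have ha : 0 < a := by linarith
    have ha' : 0 < a' := by linarith
    refine ⟨a * a', (mul_pos ha ha').ne', ?_⟩
    have e1 : (a * a') • y = (a' * b) • D.incl x := by
      rw [mul_comm a a', mul_smul, h, smul_smul]
    have e2 : (a * a') • y' = (a * b') • D.incl x := by
      rw [mul_smul, h', smul_smul]
    rw [smul_sub, e1, e2, h3, sub_self]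

/-- Numerical dimension one: if `H^1(Y, -x) ≠ 0` then `x` is semiample. -/
theorem dim_one (x : D.P) (hx : D.Nef x) (hx0 : x ≠ 0) (hsq : D.T D.H x x = 0)
    (h1 : D.h 1 (-x) ≠ 0) : D.SA x := by
  have hpos := D.deg_pos x hx hx0 hsq
  have hfin := D.fin_set x hpos
  choose j0 hj0 using D.weil.lift
  obtain ⟨J, hJ⟩ := (hfin.image j0).bddAbove
  obtain ⟨y, a, b, hb, hab, hy, hyE⟩ := D.destab x hx hsq hpos h1 J
  have h2 : j0 y ≤ J := hJ ⟨y, ⟨a, b, hb, hab, hy⟩, rfl⟩
  have ha : 0 < a := by linarith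
  have h3 := D.weil.eff_mul a y ha (hj0 y J h2 hyE)
  rw [hy, ← D.weil.add_incl.zsmul] at h3
  have h4 := D.coh.kmm (b • x) ((D.lines.nef_mul b x hb).2 hx) (D.weil.eff_incl _ h3)
  exact (D.lines.sa_mul b x hb).1 h4

/-- a nef class with `h^0 + h^2 ≠ 0` is semiample -/
private lemma of_even (x : D.P) (hx : D.Nef x) (hx0 : x ≠ 0) (h : D.h 0 x ≠ 0 ∨ D.h 2 x ≠ 0) :
    D.SA x := by
  rcases h with h | h
  · exact D.coh.kmm x hx h
  · by_cases hsq : D.T D.H x x = 0
    · refine D.dim_one x hx hx0 hsq ?_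
      rw [D.coh.serre]
      exact h
    · exact absurd (D.coh.kv x hx hsq) h

private lemma h3_zero (x : D.P) (hx : D.Nef x) (hx0 : x ≠ 0) : D.h 3 x = 0 := by
  have h := D.coh.serre 0 x
  rw [D.coh.h0_neg x hx hx0] at h
  exact h.symm

/-- If `x ≠ 0` is nef and `H^i(Y, x) ≠ 0` for some `i` then `x` is semiample. -/
theorem of_any (x : D.P) (hx : D.Nef x) (hx0 : x ≠ 0) (i : Fin 4) (h : D.h i x ≠ 0) :
    D.SA x := by
  have h3 := D.h3_zero x hx hx0
  have hr := D.coh.rr x
  have hT := D.lines.nonneg x x x hx hx hx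
  have hc := D.lines.miyaoka x hx
  rw [h3] at hr
  by_contra hcon
  have h0 : D.h 0 x = 0 := by
    by_contra h'
    exact hcon (D.of_even x hx hx0 (Or.inl h'))
  have h2 : D.h 2 x = 0 := by
    by_contra h'
    exact hcon (D.of_even x hx hx0 (Or.inr h'))
  have h1 : D.h 1 x = 0 := by
    rw [h0, h2] at hr
    push_cast at hr
    have : (0 : ℤ) ≤ (D.h 1 x : ℤ) := Int.natCast_nonneg _
    have h5 : (D.h 1 x : ℤ) = 0 := by linarith
    exact_mod_cast h5
  fin_cases i
  · exact h h0
  · exact h h1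
  · exact h h2
  · exact h h3

/-- A nef class which is not semiample: the cube and the degree of the second Chern class are zero,
and all nonzero multiples are acyclic. -/
theorem not_sa (x : D.P) (hx : D.Nef x) (hs : ¬ D.SA x) :
    D.T x x x = 0 ∧ D.c x = 0 ∧ ∀ (m : ℤ) (i : Fin 4), m ≠ 0 → D.h i (m • x) = 0 := by
  have hx0 : x ≠ 0 := fun h => hs (h ▸ D.lines.sa_zero)
  have hz : ∀ i, D.h i x = 0 := by
    intro i
    by_contra h'
    exact hs (D.of_any x hx hx0 i h')
  have hr := D.coh.rr x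
  have hT := D.lines.nonneg x x x hx hx hx
  have hc := D.lines.miyaoka x hx
  rw [hz, hz, hz, hz] at hr
  push_cast at hr
  refine ⟨by linarith, by linarith, ?_⟩
  have key : ∀ (i : Fin 4) (m : ℤ), 0 < m → D.h i (m • x) = 0 := by
    intro i m hm
    by_contra h
    have h1 : m • x ≠ 0 := by
      intro h'
      apply hs
      rw [← D.lines.sa_mul m x hm, h']
      exact D.lines.sa_zero
    exact hs ((D.lines.sa_mul m x hm).1 (D.of_any _ ((D.lines.nef_mul m x hm).2 hx) h1 i h))
  intro m i hm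
  rcases lt_or_gt_of_ne hm with h1 | h1
  · have h2 := key (Fin.rev i) (-m) (by linarith)
    rw [← D.coh.serre, neg_smul, neg_neg] at h2
    exact h2
  · exact key i m h1

end CY

/-- **Section 5 for germs of type F**: a nef Cartier class `x` is semiample on the special fibre, or
all its positive multiples are acyclic there. -/
theorem TypeF.dichotomy {PX : Type} [AddCommGroup PX] {g : Germ PX} (F : TypeF g) (mu : g.Mo)
    (x : g.Lam) (hcar : ∀ j : ℕ, 0 < j → g.Car mu (j • x)) (hx : g.Nef mu x) :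
    g.SA mu x ∨ ∀ j : ℕ, 0 < j → g.Acyclic mu (j • x) := by
  have hc1 : g.Car mu x := by
    have := hcar 1 one_pos
    rwa [one_smul] at this
  by_cases hs : (F.fib mu).SA (F.cls mu x)
  · exact Or.inl (F.sa mu x hc1 hs)
  · right
    intro j hj i
    rcases Nat.lt_or_ge i 4 with hi | hi
    · have h1 := ((F.fib mu).not_sa _ (F.nef mu x hc1 hx) hs).2.2 (j : ℤ) ⟨i, hi⟩ (by omega)
      rw [← F.cls_mul mu x j hc1 (hcar j hj)] at h1
      have h2 := F.h_eq mu (j • x) ⟨i, hi⟩ (hcar j hj)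
      rw [h1] at h2
      exact h2
    · exact F.h_top mu _ i hi

end SA

section SInterior

/-- A class which is nef on the generic fibre is nef on the fibre over the general point of all
but finitely many divisors of the base. -/
theorem Interior.finite {X : CY} {B : Type} {NefG : X.P → Prop} {Inn : B → Prop}
    {NefB : B → X.P → Prop} (S : Interior X B NefG Inn NefB) (L : X.P) (hL : NefG L) :
    {b : B | ¬ (Inn b ∧ NefB b L)}.Finite := by
  refine (S.bdry.union (S.chow (X.T S.A S.A L))).subset ?_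
  intro b hb
  by_cases hI : Inn b
  · right
    have hN : ¬ NefB b L := fun h => hb ⟨hI, h⟩
    obtain ⟨E, l, hR, hl⟩ := S.wilson b L hI hL hN
    refine ⟨hI, E, l, hR, ?_⟩
    have h1 := S.pseff b L E l hI hL hR hl
    have h2 := S.pos b E l hR
    rw [X.lines.add_T, (X.lines.add_T _ _).zsmul, smul_eq_mul] at h1
    nlinarith
  · left
    exact hI

end SInterior

section SHodge

namespace HodgeTypes

variable {h : ℕ} {B : Type} {wt : B → ℚ} (H : HodgeTypes h B wt)

/-- a prime divisor which meets the power `h - 1` of the Hodge bundle, `3 ≤ h`, has irreducible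
fibres (`kind b = 0`), or `kind b = 1`, `h ≤ 20`; the double surfaces are of abelian type only if
`h ≤ 4` -/
theorem kinds (h3 : 3 ≤ h) (b : B) (hb : wt b ≠ 0) :
    H.kind b = 0 ∨ (H.kind b = 1 ∧ h ≤ 20 ∧ (5 ≤ h → ¬ H.Abel b)) := by
  have h1 := H.rank b hb
  have h2 := H.rk_le b
  have hline := H.line b
  have hk : H.kind b ≤ 3 := by
    by_contra hcon
    rw [H.symm, H.le_three b _ _ (by omega)] at hline
    exact absurd hline (by norm_num)
  obtain ⟨k, hkd⟩ : ∃ k, k = H.kind b := ⟨_, rfl⟩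
  rw [← hkd] at hk h2 hline ⊢
  interval_cases k
  · exact Or.inl rfl
  · refine Or.inr ⟨rfl, ?_, ?_⟩
    · have h4 := H.k3 b hkd.symm
      have h5 := H.symm b 1 3
      norm_num at h2
      omega
    · intro h5 ha
      have h4 := H.abel b hkd.symm ha
      have h6 := H.symm b 1 3
      norm_num at h2
      omega
  · exfalso
    norm_num at h2
    rw [H.symm b 2 3, hline] at h2
    omega
  · exfalso
    norm_num at h2
    rw [H.symm b 2 4, H.le_three b 4 2 (by norm_num)] at h2
    omega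

end HodgeTypes

end SHodge

section SRun2

open Filter Topology

/-- Degrees: if `n (j+1) = n j - e j`, `h (j+1) = h j + e j / d j` and `n k + d k h k ≥ 0` then the
sum of the nonnegative numbers `e j` is at most `n 0`. -/
theorem sum_le_of_degrees {d : ℕ → ℝ} (hd : Thr d) (n h e : ℕ → ℝ) (he : ∀ j, 0 ≤ e j)
    (hn : ∀ j, n (j + 1) = n j - e j) (hh : ∀ j, h (j + 1) = h j + e j / d j)
    (hnef : ∀ k, 0 ≤ n k + d k * h k) (k : ℕ) :
    ∑ j ∈ Finset.range k, e j ≤ n 0 := by
  have h1 : ∀ K, n K = n 0 - ∑ j ∈ Finset.range K, e j := by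
    intro K
    induction K with
    | zero => simp
    | succ K ih => rw [hn, ih, Finset.sum_range_succ]; ring
  have h2 : ∀ K, h K = h 0 + ∑ j ∈ Finset.range K, e j / d j := by
    intro K
    induction K with
    | zero => simp
    | succ K ih => rw [hh, ih, Finset.sum_range_succ]; ring
  have h3 : ∀ K, ∑ j ∈ Finset.range K, (1 - d K / d j) * e j ≤ n 0 + d K * h 0 := by
    intro K
    have := hnef K
    rw [h1, h2] at this
    have h4 : ∑ j ∈ Finset.range K, (1 - d K / d j) * e j =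
        ∑ j ∈ Finset.range K, e j - d K * ∑ j ∈ Finset.range K, e j / d j := by
      rw [Finset.mul_sum, ← Finset.sum_sub_distrib]
      refine Finset.sum_congr rfl fun j _ => ?_
      ring
    rw [h4]
    linarith [this, mul_add (d K) (h 0) (∑ j ∈ Finset.range K, e j / d j)]
  have h5 : ∀ K, k ≤ K → ∑ j ∈ Finset.range k, (1 - d K / d j) * e j ≤ n 0 + d K * h 0 := by
    intro K hK
    refine le_trans (Finset.sum_le_sum_of_subset_of_nonneg (Finset.range_mono hK) ?_) (h3 K)
    intro j hj _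
    have hjK : j < K := Finset.mem_range.1 hj
    have : d K / d j ≤ 1 := by
      rw [div_le_one (hd.pos j)]
      exact hd.anti hjK.le
    exact mul_nonneg (by linarith) (he j)
  have h6 : Tendsto (fun K => ∑ j ∈ Finset.range k, (1 - d K / d j) * e j) atTop
      (𝓝 (∑ j ∈ Finset.range k, (1 - 0 / d j) * e j)) := by
    refine tendsto_finsetSum _ fun j _ => ?_
    exact ((tendsto_const_nhds.sub (hd.lim.div_const _)).mul_const _)
  have h7 : Tendsto (fun K => n 0 + d K * h 0) atTop (𝓝 (n 0 + 0 * h 0)) :=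
    tendsto_const_nhds.add (hd.lim.mul_const _)
  have h8 := le_of_tendsto_of_tendsto h6 h7 (eventually_atTop.2 ⟨k, fun K hK => h5 K hK⟩)
  simpa using h8

namespace DRun

variable {d : ℕ → ℝ} (R : DRun d)

/-- Only finitely many steps meet the double surface. -/
theorem finite_meets (hd : Thr d) : {j | R.meets j}.Finite := by
  -- degree of the drops
  have h0 : ∀ j, 0 ≤ R.deg (R.G j) := by
    intro j
    by_cases h : R.G j = 0
    · rw [h]; simp
    · exact (R.deg_eff _ (R.eff j) h).le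
  have h1 : ∀ j, R.meets j → 1 ≤ (R.m : ℝ) * R.deg (R.G j) := by
    intro j hj
    have hpos := R.deg_eff _ (R.eff j) (R.ne j hj)
    obtain ⟨z, hz⟩ := R.deg_int _ (R.lattice j)
    rw [map_nsmul, nsmul_eq_mul] at hz
    have hm : (0 : ℝ) < R.m := by exact_mod_cast R.m_pos
    have hz' : (0 : ℝ) < z := by rw [← hz]; exact mul_pos hm hpos
    have hz'' : (1 : ℤ) ≤ z := by
      have : (0 : ℤ) < z := by exact_mod_cast hz'
      omega
    rw [hz]
    exact_mod_cast hz''
  have h2 : ∀ k, ∑ j ∈ Finset.range k, R.deg (R.G j) ≤ R.deg (R.N 0) := by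
    intro k
    refine sum_le_of_degrees hd (fun j => R.deg (R.N j)) (fun j => R.deg (R.H j))
      (fun j => R.deg (R.G j)) h0 ?_ ?_ ?_ k
    · intro j
      simp only [R.stepN, map_sub]
    · intro j
      simp only [R.stepH, map_add, map_smul, smul_eq_mul]
      ring
    · intro j
      have := R.deg_nef _ (R.nef j)
      simpa [map_add, map_smul] using this
  by_contra hinf
  have hinf : {j | R.meets j}.Infinite := hinf
  obtain ⟨n, hn⟩ := exists_nat_gt ((R.m : ℝ) * R.deg (R.N 0))
  obtain ⟨S, hS, hcard⟩ := hinf.exists_subset_card_eq n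
  obtain ⟨k, hk⟩ : ∃ k, S ⊆ Finset.range k := S.exists_nat_subset_range
  have h3 : (n : ℝ) ≤ ∑ j ∈ S, (R.m : ℝ) * R.deg (R.G j) := by
    rw [← hcard]
    have : ∑ j ∈ S, (1 : ℝ) ≤ ∑ j ∈ S, (R.m : ℝ) * R.deg (R.G j) :=
      Finset.sum_le_sum fun j hj => h1 j (hS hj)
    simpa using this
  have h4 : ∑ j ∈ S, (R.m : ℝ) * R.deg (R.G j) ≤
      ∑ j ∈ Finset.range k, (R.m : ℝ) * R.deg (R.G j) :=
    Finset.sum_le_sum_of_subset_of_nonneg hk fun j _ _ => mul_nonneg (Nat.cast_nonneg _) (h0 j)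
  have h5 := mul_le_mul_of_nonneg_left (h2 k) (Nat.cast_nonneg R.m : (0 : ℝ) ≤ R.m)
  rw [Finset.mul_sum] at h5
  linarith

end DRun

/-- A small step increases the cube. -/
theorem Flop.lt {a b : ℝ} (F : Flop a b) : a < b := by
  have h0 : ∀ x y z w, F.T z (F.sub x y) w = F.T z x w - F.T z y w := by
    intro x y z w
    rw [F.symm₁, F.T_sub, F.symm₁ x, F.symm₁ y]
  have h0' : ∀ x y z w, F.T z w (F.sub x y) = F.T z w x - F.T z w y := by
    intro x y z w
    rw [F.symm₂, h0, F.symm₂ z x, F.symm₂ z y]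
  have h1 := F.AAE
  have h2 := F.BBE
  have h3 := F.EEE
  have hA := F.cubeA
  have hB := F.cubeB
  simp only [F.T_sub, h0, h0'] at h1 h2 h3
  have s1 := F.symm₁ F.A F.B F.A
  have s2 := F.symm₂ F.A F.B F.A
  have s3 := F.symm₁ F.A F.B F.B
  have s4 := F.symm₂ F.B F.A F.B
  linarith

namespace CompRun

variable {d : ℕ → ℝ} (R : CompRun d)

theorem antitone_mult (G : R.Dv) : Antitone fun j => R.mult j G :=
  antitone_nat_of_succ_le fun j => R.anti j G

/-- the degree of `E_j` -/
noncomputable def e (j : ℕ) : ℝ := ∑ᶠ G, (R.mult j G - R.mult (j + 1) G) * R.wt G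

theorem term_nonneg (j : ℕ) (G : R.Dv) : 0 ≤ (R.mult j G - R.mult (j + 1) G) * R.wt G :=
  mul_nonneg (sub_nonneg.2 (R.anti j G)) (zero_le_one.trans (R.one_le_wt G))

theorem supp_term (j : ℕ) :
    (Function.support fun G => (R.mult j G - R.mult (j + 1) G) * R.wt G).Finite := by
  refine (R.supp j).subset ?_
  intro G hG hcon
  apply hG
  change (R.mult j G - R.mult (j + 1) G) * R.wt G = 0
  rw [hcon]
  simp

theorem sum_le_e (j : ℕ) (S : Finset R.Dv) :
    ∑ G ∈ S, (R.mult j G - R.mult (j + 1) G) ≤ R.e j := by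
  have h1 : ∑ G ∈ S, (R.mult j G - R.mult (j + 1) G) ≤
      ∑ G ∈ S, (R.mult j G - R.mult (j + 1) G) * R.wt G := by
    refine Finset.sum_le_sum fun G _ => ?_
    exact le_mul_of_one_le_right (sub_nonneg.2 (R.anti j G)) (R.one_le_wt G)
  refine h1.trans ?_
  classical
  have hs := R.supp_term j
  rw [e, finsum_eq_sum_of_support_subset (s := hs.toFinset ∪ S) _ (by
    intro G hG
    simp only [Finset.coe_union, Set.mem_union]
    left
    exact hs.mem_toFinset.2 hG)]
  exact Finset.sum_le_sum_of_subset_of_nonneg Finset.subset_union_right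
    fun G _ _ => R.term_nonneg j G

theorem e_nonneg (j : ℕ) : 0 ≤ R.e j := finsum_nonneg fun G => R.term_nonneg j G

/-- the total drop of the multiplicities is bounded -/
theorem total_drop (hd : Thr d) (S : Finset R.Dv) (k : ℕ) :
    ∑ G ∈ S, (R.mult 0 G - R.mult k G) ≤ R.n 0 := by
  have h1 := sum_le_of_degrees hd R.n R.h R.e R.e_nonneg R.stepn R.steph R.nef k
  refine le_trans ?_ h1
  have h2 : ∀ K, ∑ G ∈ S, (R.mult 0 G - R.mult K G) ≤ ∑ j ∈ Finset.range K, R.e j := by
    intro K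
    induction K with
    | zero => simp
    | succ K ih =>
      rw [Finset.sum_range_succ]
      have h3 := R.sum_le_e K S
      have h4 : ∑ G ∈ S, (R.mult 0 G - R.mult (K + 1) G) =
          ∑ G ∈ S, (R.mult 0 G - R.mult K G) + ∑ G ∈ S, (R.mult K G - R.mult (K + 1) G) := by
        rw [← Finset.sum_add_distrib]
        refine Finset.sum_congr rfl fun G _ => ?_
        ring
      linarith
  exact h2 k

theorem drop_le (hd : Thr d) (G : R.Dv) (k : ℕ) : R.mult 0 G - R.mult k G ≤ R.n 0 := by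
  have := R.total_drop hd {G} k
  simpa using this

/-- a divisor of the `j`-th or of the `(j+1)`-st model lies over the locus of step `j` -/
def Event (j : ℕ) (G : R.Dv) : Prop := R.exc j G ∧ (R.on j G ∨ R.on (j + 1) G)

/-- a bounded antitone sequence of integers is eventually constant -/
theorem eventually_const {f : ℕ → ℤ} (hf : Antitone f) (c : ℤ) (hc : ∀ j, c ≤ f j) :
    ∃ J, ∀ j, J ≤ j → f j = f J := by
  have h1 : ∃ n : ℕ, ∃ J, (f J - c).toNat = n := ⟨_, 0, rfl⟩
  classical
  obtain ⟨J, hJ⟩ := Nat.find_spec h1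
  refine ⟨J, fun j hj => le_antisymm (hf hj) ?_⟩
  by_contra hlt
  push Not at hlt
  have h2 : (f j - c).toNat < Nat.find h1 := by
    rw [← hJ]
    have := hc j
    have := hc J
    omega
  exact Nat.find_min h1 h2 ⟨j, rfl⟩

/-- every prime divisor has finitely many events -/
theorem events_of_divisor (hd : Thr d) (G : R.Dv) : {j | R.Event j G}.Finite := by
  have hb : ∀ j, R.mult 0 G - R.n 0 ≤ R.mult j G := fun j => by
    have := R.drop_le hd G j
    linarith
  have hm := R.antitone_mult G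
  obtain ⟨J₁, hJ₁⟩ := eventually_const (f := fun j => ⌊R.mult j G⌋)
    (fun i j hij => Int.floor_le_floor (hm hij)) ⌊R.mult 0 G - R.n 0⌋
    (fun j => Int.floor_le_floor (hb j))
  obtain ⟨J₂, hJ₂⟩ := eventually_const (f := fun j => ⌈R.mult j G⌉)
    (fun i j hij => Int.ceil_le_ceil (hm hij)) ⌈R.mult 0 G - R.n 0⌉
    (fun j => Int.ceil_le_ceil (hb j))
  refine (Set.finite_lt_nat (max J₁ J₂)).subset ?_
  intro j hj
  by_contra hlt
  have hle : max J₁ J₂ ≤ j := not_lt.1 hlt
  have h1 : J₁ ≤ j := (le_max_left _ _).trans hle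
  have h2 : J₂ ≤ j := (le_max_right _ _).trans hle
  have hdrop := R.exc_lt j G hj.1
  rcases hj.2 with hon | hon
  · obtain ⟨z, hz⟩ := R.int j G hon
    have h3 : ⌊R.mult (j + 1) G⌋ = ⌊R.mult j G⌋ := by
      have a1 := hJ₁ j h1
      have a2 := hJ₁ (j + 1) (h1.trans (Nat.le_succ j))
      exact a2.trans a1.symm
    rw [hz, Int.floor_intCast] at h3
    have h4 := Int.floor_le (R.mult (j + 1) G)
    rw [h3, ← hz] at h4
    linarith
  · obtain ⟨z, hz⟩ := R.int (j + 1) G hon
    have h3 : ⌈R.mult (j + 1) G⌉ = ⌈R.mult j G⌉ := by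
      have a1 := hJ₂ j h2
      have a2 := hJ₂ (j + 1) (h2.trans (Nat.le_succ j))
      exact a2.trans a1.symm
    rw [hz, Int.ceil_intCast] at h3
    have h4 := Int.le_ceil (R.mult j G)
    rw [← h3, ← hz] at h4
    linarith

/-- a set of prime divisors whose finite subsets have bounded cardinality is finite -/
theorem finite_of_card_le {α : Type} {s : Set α} (n : ℕ)
    (h : ∀ S : Finset α, (S : Set α) ⊆ s → S.card ≤ n) : s.Finite := by
  by_contra hinf
  obtain ⟨S, hS, hcard⟩ := (show s.Infinite from hinf).exists_subset_card_eq (n + 1)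
  have := h S hS
  omega

/-- the prime divisors which lose at least one -/
theorem finite_dropping (hd : Thr d) :
    {G : R.Dv | ∃ k, 1 ≤ R.mult 0 G - R.mult k G}.Finite := by
  refine finite_of_card_le ⌊R.n 0⌋₊ fun S hS => ?_
  have hS' : ∀ G ∈ S, ∃ k, 1 ≤ R.mult 0 G - R.mult k G := fun G hG => hS hG
  choose! k hk using hS'
  let K := S.sup k
  have h1 : (S.card : ℝ) ≤ ∑ G ∈ S, (R.mult 0 G - R.mult K G) := by
    have : ∑ G ∈ S, (1 : ℝ) ≤ ∑ G ∈ S, (R.mult 0 G - R.mult K G) := by
      refine Finset.sum_le_sum fun G hG => ?_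
      have h2 := hk G hG
      have h3 : R.mult K G ≤ R.mult (k G) G := R.antitone_mult G (Finset.le_sup hG)
      linarith
    simpa using this
  exact Nat.le_floor (h1.trans (R.total_drop hd S K))

/-- the prime divisors which are contracted for good -/
theorem finite_gone : {G : R.Dv | ∃ k, ∀ j, k ≤ j → ¬ R.on j G}.Finite := by
  refine finite_of_card_le R.rho fun S hS => ?_
  have hS' : ∀ G ∈ S, ∃ k, ∀ j, k ≤ j → ¬ R.on j G := fun G hG => hS hG
  choose! k hk using hS'
  let K := S.sup k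
  refine le_trans ?_ (R.off_le K)
  rw [← Set.ncard_coe_finset]
  refine Set.ncard_le_ncard ?_ (R.off_fin K)
  intro G hG
  exact hk G hG K (Finset.le_sup hG)

theorem int_lt {a b : ℝ} (ha : ∃ z : ℤ, a = z) (hb : ∃ z : ℤ, b = z) (h : a < b) :
    1 ≤ b - a := by
  obtain ⟨z, rfl⟩ := ha
  obtain ⟨w, rfl⟩ := hb
  have h1 : z < w := by exact_mod_cast h
  have h2 : (1 : ℤ) ≤ w - z := by omega
  exact_mod_cast h2

/-- only finitely many prime divisors have an event -/
theorem finite_divisors (hd : Thr d) : {G : R.Dv | ∃ j, R.Event j G}.Finite := by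
  refine ((R.finite_dropping hd).union ((R.off_fin 0).union R.finite_gone)).subset ?_
  rintro G ⟨j, hexc, hon⟩
  by_contra hcon
  simp only [Set.mem_union, Set.mem_ofPred_eq, not_or, not_not, not_exists] at hcon
  obtain ⟨h1, h2, h3⟩ := hcon
  have hm := R.antitone_mult G
  have hdrop := R.exc_lt j G hexc
  rcases hon with hon | hon
  · -- it is contracted and can not come back
    refine h3 (j + 1) fun t ht hont => ?_
    have h4 : R.mult t G < R.mult j G := lt_of_le_of_lt (hm ht) hdrop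
    have h5 := int_lt (R.int t G hont) (R.int j G hon) h4
    have h6 : R.mult j G ≤ R.mult 0 G := hm (Nat.zero_le j)
    exact h1 t (by linarith)
  · have h4 : R.mult (j + 1) G < R.mult 0 G := lt_of_lt_of_le hdrop (hm (Nat.zero_le j))
    exact h1 (j + 1) (int_lt (R.int _ G hon) (R.int 0 G h2) h4)

/-- there are finitely many events -/
theorem finite_events (hd : Thr d) : {j | ∃ G, R.Event j G}.Finite := by
  have h : {j | ∃ G, R.Event j G} ⊆ ⋃ G ∈ {G : R.Dv | ∃ j, R.Event j G}, {j | R.Event j G} := by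
    rintro j ⟨G, hG⟩
    simp only [Set.mem_iUnion, Set.mem_ofPred_eq, exists_prop]
    exact ⟨G, ⟨j, hG⟩, hG⟩
  exact ((R.finite_divisors hd).biUnion fun G _ => R.events_of_divisor hd G).subset h

/-- from some step on the cube does not decrease, and it increases if the component is moved -/
theorem cube_mono (hd : Thr d) :
    ∃ J, ∀ j, J ≤ j → R.cube j ≤ R.cube (j + 1) ∧ (R.moves j → R.cube j < R.cube (j + 1)) := by
  obtain ⟨J, hJ⟩ := (R.finite_events hd).bddAbove
  refine ⟨J + 1, fun j hj => ?_⟩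
  have hno : ∀ G, R.exc j G → ¬ R.on j G ∧ ¬ R.on (j + 1) G := by
    intro G hG
    have h1 : ¬ R.Event j G := fun hE => by
      have h2 := hJ (show j ∈ {j | ∃ G, R.Event j G} from ⟨G, hE⟩)
      omega
    constructor
    · intro h
      exact h1 ⟨hG, Or.inl h⟩
    · intro h
      exact h1 ⟨hG, Or.inr h⟩
  have hlt : R.moves j → R.cube j < R.cube (j + 1) := fun hm =>
    (R.small j hm hno).some.lt
  refine ⟨?_, hlt⟩
  by_cases hm : R.moves j
  · exact (hlt hm).le
  · exact (R.cube_eq j hm).ge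

end CompRun

/-- There is no infinite sequence of steps disjoint from the double surfaces; in particular there is
none if the fibre is irreducible. -/
theorem Tail.false {d : ℕ → ℝ} (hd : Thr d) (R : Tail d) : False := by
  have h1 : ∀ i, ∃ J, ∀ j, J ≤ j → (R.comp i).cube j ≤ (R.comp i).cube (j + 1) ∧
      ((R.comp i).moves j → (R.comp i).cube j < (R.comp i).cube (j + 1)) :=
    fun i => (R.comp i).cube_mono hd
  choose J hJ using h1
  let K := Finset.univ.sup J
  have hK : ∀ i, J i ≤ K := fun i => Finset.le_sup (Finset.mem_univ i)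
  obtain ⟨i, hi⟩ := R.move K
  have h2 : ∑ i, (R.comp i).cube K < ∑ i, (R.comp i).cube (K + 1) :=
    Finset.sum_lt_sum (fun i _ => (hJ i K (hK i)).1) ⟨i, Finset.mem_univ i, (hJ i K (hK i)).2 hi⟩
  rw [R.sum_cube, R.sum_cube] at h2
  exact lt_irrefl _ h2

theorem Thr.shift {d : ℕ → ℝ} (hd : Thr d) (k : ℕ) : Thr fun j => d (k + j) where
  pos := fun j => hd.pos _
  anti := fun i j hij => hd.anti (Nat.add_le_add_left hij k)
  lim := by
    have h := (tendsto_add_atTop_iff_nat (f := d) k).2 hd.lim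
    refine h.congr fun j => ?_
    rw [add_comm]

/-- TERMINATION: there is no infinite sequence of steps. -/
theorem ChainRun.false (R : ChainRun) : False := by
  have h1 : {j | ∃ z, (R.onD z).meets j}.Finite := by
    have : {j | ∃ z, (R.onD z).meets j} = ⋃ z, {j | (R.onD z).meets j} := by
      ext j
      simp
    rw [this]
    exact Set.finite_iUnion fun z => (R.onD z).finite_meets R.thr
  obtain ⟨J, hJ⟩ := h1.bddAbove
  obtain ⟨T⟩ := R.tail (J + 1) (fun j hj z hz => by
    have := hJ (show j ∈ {j | ∃ z, (R.onD z).meets j} from ⟨z, hz⟩)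
    omega)
  exact T.false (R.thr.shift (J + 1))

end SRun2

section SRat

open scoped BigOperators

/-- The identity of finitely many real numbers is approximated by a `ℚ`-linear map `ℝ → ℚ` which
fixes `1`. -/
theorem exists_approx (S : Finset ℝ) (ε : ℝ) (hε : 0 < ε) :
    ∃ φ : ℝ →ₗ[ℚ] ℚ, φ 1 = 1 ∧ ∀ x ∈ S, |(φ x : ℝ) - x| < ε := by
  classical
  have hli : LinearIndepOn ℚ id ({1} : Set ℝ) := by
    rw [linearIndepOn_singleton_iff]
    exact one_ne_zero
  let b := Module.Basis.extend hli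
  have h1 : (1 : ℝ) ∈ hli.extend (Set.subset_univ _) :=
    hli.subset_extend _ (Set.mem_singleton 1)
  let i1 : ↥(hli.extend (Set.subset_univ _)) := ⟨1, h1⟩
  have hb : ∀ i, b i = (i : ℝ) := fun i => Module.Basis.extend_apply_self hli i
  -- a bound for the coordinates
  obtain ⟨K, hK0, hK⟩ : ∃ K : ℝ, 0 < K ∧ ∀ x ∈ S,
      ∑ i ∈ (b.repr x).support, |((b.repr x i : ℚ) : ℝ)| ≤ K := by
    refine ⟨1 + ∑ x ∈ S, ∑ i ∈ (b.repr x).support, |((b.repr x i : ℚ) : ℝ)|, ?_, ?_⟩
    · have : 0 ≤ ∑ x ∈ S, ∑ i ∈ (b.repr x).support, |((b.repr x i : ℚ) : ℝ)| :=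
        Finset.sum_nonneg fun x _ => Finset.sum_nonneg fun i _ => abs_nonneg _
      linarith
    · intro x hx
      have := Finset.single_le_sum (f := fun x => ∑ i ∈ (b.repr x).support,
        |((b.repr x i : ℚ) : ℝ)|) (fun y _ => Finset.sum_nonneg fun i _ => abs_nonneg _) hx
      linarith
  have happ : ∀ i : ↥(hli.extend (Set.subset_univ _)), ∃ q : ℚ, |(q : ℝ) - (i : ℝ)| < ε / (2 * K) ∧
      (i = i1 → q = 1) := by
    intro i
    by_cases hi : i = i1
    · refine ⟨1, ?_, fun _ => rfl⟩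
      rw [hi]
      simp only [i1, Rat.cast_one, sub_self, abs_zero]
      positivity
    · obtain ⟨q, hq1, hq2⟩ := exists_rat_btwn (show (i : ℝ) - ε / (2 * K) < (i : ℝ) by
        have : 0 < ε / (2 * K) := by positivity
        linarith)
      refine ⟨q, ?_, fun h => absurd h hi⟩
      rw [abs_lt]
      constructor <;> linarith
  choose q hq hq1 using happ
  let φ : ℝ →ₗ[ℚ] ℚ := b.constr ℚ q
  have hφ : ∀ i : ↥(hli.extend (Set.subset_univ _)), φ (i : ℝ) = q i := by
    intro i
    rw [← hb i]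
    exact b.constr_basis ℚ q i
  refine ⟨φ, ?_, ?_⟩
  · have := hφ i1
    rw [hq1 i1 rfl] at this
    exact this
  · intro x hx
    have hx1 : x = ∑ i ∈ (b.repr x).support, ((b.repr x i : ℚ) : ℝ) * (i : ℝ) := by
      conv_lhs => rw [← b.linearCombination_repr x, Finsupp.linearCombination_apply, Finsupp.sum]
      refine Finset.sum_congr rfl fun i _ => ?_
      rw [hb, Rat.smul_def]
    have hx2 : (φ x : ℝ) = ∑ i ∈ (b.repr x).support, ((b.repr x i : ℚ) : ℝ) * (q i : ℝ) := by
      have : φ x = ∑ i ∈ (b.repr x).support, b.repr x i * q i := by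
        conv_lhs => rw [← b.linearCombination_repr x, Finsupp.linearCombination_apply,
          Finsupp.sum, map_sum]
        refine Finset.sum_congr rfl fun i _ => ?_
        rw [map_smul, hb, hφ, smul_eq_mul]
      rw [this]
      push_cast
      rfl
    have hx3 : (φ x : ℝ) - x = ∑ i ∈ (b.repr x).support,
        ((b.repr x i : ℚ) : ℝ) * ((q i : ℝ) - (i : ℝ)) := by
      have hx4 : (φ x : ℝ) - x = (∑ i ∈ (b.repr x).support, ((b.repr x i : ℚ) : ℝ) * (q i : ℝ)) -
          ∑ i ∈ (b.repr x).support, ((b.repr x i : ℚ) : ℝ) * (i : ℝ) := by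
        rw [← hx1, hx2]
      rw [hx4, ← Finset.sum_sub_distrib]
      exact Finset.sum_congr rfl fun i _ => by ring
    rw [hx3]
    refine lt_of_le_of_lt (Finset.abs_sum_le_sum_abs _ _) ?_
    have h4 : ∑ i ∈ (b.repr x).support, |((b.repr x i : ℚ) : ℝ) * ((q i : ℝ) - (i : ℝ))| ≤
        ∑ i ∈ (b.repr x).support, |((b.repr x i : ℚ) : ℝ)| * (ε / (2 * K)) := by
      refine Finset.sum_le_sum fun i _ => ?_
      rw [abs_mul]
      exact mul_le_mul_of_nonneg_left (hq i).le (abs_nonneg _)
    rw [← Finset.sum_mul] at h4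
    have h5 := hK x hx
    have h6 : (∑ i ∈ (b.repr x).support, |((b.repr x i : ℚ) : ℝ)|) * (ε / (2 * K)) ≤
        K * (ε / (2 * K)) := mul_le_mul_of_nonneg_right h5 (by positivity)
    have h7 : K * (ε / (2 * K)) = ε / 2 := by field_simp
    linarith

/-- A finite system of linear inequalities with rational coefficients which has a real solution has
a rational solution. -/
theorem exists_rat_of_finite {ι J : Type} [Fintype ι] [Finite J] (a : J → ι → ℚ) (b : J → ℚ)
    (s : ι → ℝ) (hs : ∀ j, ∑ i, (a j i : ℝ) * s i ≤ (b j : ℝ)) :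
    ∃ q : ι → ℚ, ∀ j, ∑ i, a j i * q i ≤ b j := by
  classical
  have := Fintype.ofFinite J
  -- the smallest gap
  obtain ⟨g, hg0, hg⟩ : ∃ g : ℝ, 0 < g ∧ ∀ j, ∑ i, (a j i : ℝ) * s i < b j →
      g ≤ b j - ∑ i, (a j i : ℝ) * s i := by
    refine ⟨(insert 1 ((Finset.univ.filter fun j => ∑ i, (a j i : ℝ) * s i < b j).image
      fun j => (b j : ℝ) - ∑ i, (a j i : ℝ) * s i)).min' ⟨1, Finset.mem_insert_self _ _⟩, ?_, ?_⟩
    · rw [Finset.lt_min'_iff]
      intro y hy
      rcases Finset.mem_insert.1 hy with rfl | hy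
      · exact one_pos
      · obtain ⟨j, hj, rfl⟩ := Finset.mem_image.1 hy
        exact sub_pos.2 (Finset.mem_filter.1 hj).2
    · intro j hj
      refine Finset.min'_le _ _ (Finset.mem_insert_of_mem (Finset.mem_image.2 ⟨j, ?_, rfl⟩))
      exact Finset.mem_filter.2 ⟨Finset.mem_univ _, hj⟩
  let S : Finset ℝ := Finset.univ.image fun j => ∑ i, (a j i : ℝ) * s i
  obtain ⟨φ, hφ1, hφ⟩ := exists_approx S g hg0
  have hφq : ∀ c : ℚ, φ (c : ℝ) = c := by
    intro c
    have : (c : ℝ) = c • (1 : ℝ) := by rw [Rat.smul_def, mul_one]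
    rw [this, map_smul, hφ1, smul_eq_mul, mul_one]
  refine ⟨fun i => φ (s i), fun j => ?_⟩
  have h1 : ∑ i, a j i * φ (s i) = φ (∑ i, (a j i : ℝ) * s i) := by
    rw [map_sum]
    refine Finset.sum_congr rfl fun i _ => ?_
    rw [← Rat.smul_def, map_smul, smul_eq_mul]
  rw [h1]
  rcases eq_or_lt_of_le (hs j) with h2 | h2
  · rw [h2, hφq]
  · have h3 := hg j h2
    have h4 := hφ _ (Finset.mem_image.2 ⟨j, Finset.mem_univ _, rfl⟩)
    have h5 := (abs_lt.1 h4).2
    have h6 : ((φ (∑ i, (a j i : ℝ) * s i) : ℚ) : ℝ) ≤ b j := by linarith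
    exact_mod_cast h6

/-- **Rationality of the vertical coefficients.** Let `Φ` be a set of inequalities
`∑ v F i * s i ≤ l F` such that the vectors `v F` form a finite set of rational vectors and the
numbers `l F` have a common denominator. If there is a real solution then there is a rational
solution. -/
theorem exists_rat {ι Φ : Type} [Fintype ι] (v : Φ → ι → ℚ) (l : Φ → ℚ)
    (hv : (Set.range v).Finite) (m : ℕ) (hm : 0 < m) (hl : ∀ F, ∃ z : ℤ, (m : ℚ) * l F = z)
    (s : ι → ℝ) (hs : ∀ F, ∑ i, (v F i : ℝ) * s i ≤ (l F : ℝ)) :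
    ∃ q : ι → ℚ, ∀ F, ∑ i, v F i * q i ≤ l F := by
  classical
  -- for each vector the smallest constant
  have hmin : ∀ w : Set.range v, ∃ F : Φ, v F = w ∧ ∀ F', v F' = w → l F ≤ l F' := by
    rintro ⟨w, F0, hF0⟩
    choose z hz using hl
    -- the integers `z F` with `v F = w` are bounded below
    have hm' : (0 : ℝ) < m := by exact_mod_cast hm
    have hbd : ∀ F, v F = w → ⌊(m : ℝ) * ∑ i, (w i : ℝ) * s i⌋ ≤ z F := by
      intro F hF
      have h1 := hs F
      rw [hF] at h1
      have h2 : (m : ℝ) * l F = z F := by exact_mod_cast hz F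
      have h3 : (m : ℝ) * ∑ i, (w i : ℝ) * s i ≤ z F := by
        rw [← h2]
        exact mul_le_mul_of_nonneg_left h1 hm'.le
      have h4 := Int.floor_le ((m : ℝ) * ∑ i, (w i : ℝ) * s i)
      have h5 : ((⌊(m : ℝ) * ∑ i, (w i : ℝ) * s i⌋ : ℤ) : ℝ) ≤ (z F : ℝ) := le_trans h4 h3
      exact_mod_cast h5
    obtain ⟨y, ⟨F, hF, rfl⟩, hy⟩ := Int.exists_least_of_bdd
      (P := fun y => ∃ F, v F = w ∧ z F = y)
      ⟨⌊(m : ℝ) * ∑ i, (w i : ℝ) * s i⌋, by rintro y ⟨F, hF, rfl⟩; exact hbd F hF⟩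
      ⟨z F0, F0, hF0, rfl⟩
    refine ⟨F, hF, fun F' hF' => ?_⟩
    have h6 := hy (z F') ⟨F', hF', rfl⟩
    have h7 : (m : ℚ) * l F ≤ (m : ℚ) * l F' := by
      rw [hz, hz]
      exact_mod_cast h6
    have hm'' : (0 : ℚ) < m := by exact_mod_cast hm
    exact le_of_mul_le_mul_left h7 hm''
  choose F hF hFmin using hmin
  have : Finite (Set.range v) := hv.to_subtype
  obtain ⟨q, hq⟩ := exists_rat_of_finite (fun w : Set.range v => (w : ι → ℚ))
    (fun w => l (F w)) s (fun w => by
      have := hs (F w)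
      rw [hF w] at this
      exact this)
  exact ⟨q, fun G => (hq ⟨v G, G, rfl⟩).trans (hFmin ⟨v G, G, rfl⟩ G rfl)⟩

end SRat

section SNef

open Filter Topology

namespace NefGerm

variable {P : Type} [AddCommGroup P] {g : Germ P} {NefG : P → Prop} (S : NefGerm g NefG)

/-- the vertical coefficients for which the class is movable after adding `d H` -/
def K (x : g.Lam) (d : ℝ) : Set (S.I → ℝ) := {s | S.tw x s d ∈ S.Mov}

theorem continuous_tw (x : g.Lam) (d : ℝ) : Continuous fun s => S.tw x s d := by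
  unfold DivSpace.tw
  fun_prop

theorem isClosed_K (x : g.Lam) (d : ℝ) : IsClosed (S.K x d) :=
  S.closed.preimage (S.continuous_tw x d)

theorem K_anti (x : g.Lam) {d e : ℝ} (h : d ≤ e) : S.K x d ⊆ S.K x e := by
  intro s hs
  have h1 := S.add_mem _ _ hs (S.smul_mem (e - d) S.H (sub_nonneg.2 h) S.H_mem)
  have h2 : S.tw x s d + (e - d) • S.H = S.tw x s e := by
    unfold DivSpace.tw
    rw [add_assoc, ← add_smul]
    congr 2
    ring
  rw [h2] at h1
  exact h1

/-- the vertical coefficients are bounded -/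
theorem isBounded_K (x : g.Lam) (d : ℝ) : Bornology.IsBounded (S.K x d) := by
  by_contra hb
  -- a sequence of elements of norm at least `n + 1`
  have h1 : ∀ n : ℕ, ∃ s ∈ S.K x d, (n : ℝ) + 1 ≤ ‖s‖ := by
    intro n
    by_contra hcon
    push Not at hcon
    exact hb (isBounded_iff_forall_norm_le.2 ⟨(n : ℝ) + 1, fun s hs => (hcon s hs).le⟩)
  choose s hs hn using h1
  have hpos : ∀ n, 0 < ‖s n‖ := fun n => lt_of_lt_of_le (by positivity) (hn n)
  -- the directions
  let u : ℕ → S.I → ℝ := fun n => (‖s n‖)⁻¹ • s n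
  have hu : ∀ n, u n ∈ Metric.sphere (0 : S.I → ℝ) 1 := by
    intro n
    rw [mem_sphere_zero_iff_norm]
    simp only [u, norm_smul, norm_inv, norm_norm]
    exact inv_mul_cancel₀ (hpos n).ne'
  obtain ⟨v, hv, φ, hφ, hlim⟩ := (isCompact_sphere (0 : S.I → ℝ) 1).tendsto_subseq hu
  have hinv : Tendsto (fun n => (‖s (φ n)‖)⁻¹) atTop (𝓝 0) := by
    refine Tendsto.inv_tendsto_atTop (tendsto_atTop_mono (fun n => ?_)
      (tendsto_natCast_atTop_atTop (R := ℝ)))
    have h2 := hn (φ n)
    have h3 : (n : ℝ) ≤ φ n := by exact_mod_cast hφ.id_le n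
    linarith
  have hmem : ∀ n, (‖s (φ n)‖)⁻¹ • S.cl x - ∑ i, u (φ n) i • S.cl (S.V i) +
      ((‖s (φ n)‖)⁻¹ * d) • S.H ∈ S.Mov := by
    intro n
    have h2 := S.smul_mem (‖s (φ n)‖)⁻¹ _ (inv_nonneg.2 (norm_nonneg _)) (hs (φ n))
    have h3 : (‖s (φ n)‖)⁻¹ • S.tw x (s (φ n)) d =
        (‖s (φ n)‖)⁻¹ • S.cl x - ∑ i, u (φ n) i • S.cl (S.V i) +
          ((‖s (φ n)‖)⁻¹ * d) • S.H := by
      simp only [DivSpace.tw, u, smul_add, smul_sub, Finset.smul_sum, smul_smul, Pi.smul_apply,
        smul_eq_mul]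
    rw [h3] at h2
    exact h2
  have hl1 : Tendsto (fun n => (‖s (φ n)‖)⁻¹ • S.cl x - ∑ i, u (φ n) i • S.cl (S.V i) +
      ((‖s (φ n)‖)⁻¹ * d) • S.H) atTop
      (𝓝 ((0 : ℝ) • S.cl x - ∑ i, v i • S.cl (S.V i) + ((0 : ℝ) * d) • S.H)) := by
    refine Tendsto.add (Tendsto.sub (hinv.smul_const _) (tendsto_finsetSum _ fun i _ => ?_))
      ((hinv.mul_const d).smul_const _)
    exact ((tendsto_pi_nhds.1 hlim) i).smul_const _
  have h4 := S.closed.mem_of_tendsto hl1 (Eventually.of_forall hmem)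
  have h5 := S.neg v (by
    unfold DivSpace.tw
    rw [zero_smul, zero_mul] at h4
    rw [map_zero]
    exact h4)
  rw [h5, mem_sphere_zero_iff_norm, norm_zero] at hv
  exact zero_ne_one hv

theorem isCompact_K (x : g.Lam) (d : ℝ) : IsCompact (S.K x d) :=
  Metric.isCompact_of_isClosed_isBounded (S.isClosed_K x d) (S.isBounded_K x d)

/-- there are real vertical coefficients which are good for all `d > 0` -/
theorem exists_real (x : g.Lam) (hx : NefG (g.rho x)) : ∃ s, ∀ d : ℝ, 0 < d → s ∈ S.K x d := by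
  have h1 : (⋂ n : ℕ, S.K x (1 / ((n : ℝ) + 1))).Nonempty := by
    refine IsCompact.nonempty_iInter_of_sequence_nonempty_isCompact_isClosed _ ?_ ?_ ?_ ?_
    · intro n
      refine S.K_anti x ?_
      push_cast
      exact one_div_le_one_div_of_le (by positivity) (by linarith)
    · intro n
      obtain ⟨s, hs⟩ := S.gen x hx (n + 1) (Nat.succ_pos n)
      refine ⟨s, ?_⟩
      change S.tw x s (1 / ((n : ℝ) + 1)) ∈ S.Mov
      push_cast at hs
      exact hs
    · exact S.isCompact_K x _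
    · exact fun n => S.isClosed_K x _
  obtain ⟨s, hs⟩ := h1
  refine ⟨s, fun d hd => ?_⟩
  obtain ⟨n, hn⟩ := exists_nat_one_div_lt hd
  exact S.K_anti x hn.le (Set.mem_iInter.1 hs n)

/-- the intersection number as a linear form -/
noncomputable def lin (F : S.Fam) : S.N →ₗ[ℝ] ℝ where
  toFun := S.deg F
  map_add' := S.deg_add F
  map_smul' := S.deg_smul F

theorem deg_tw (F : S.Fam) (x : g.Lam) (s : S.I → ℝ) (d : ℝ) :
    S.deg F (S.tw x s d) =
      S.deg F (S.cl x) - ∑ i, s i * S.deg F (S.cl (S.V i)) + d * S.deg F S.H := by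
  change S.lin F (S.tw x s d) = S.lin F (S.cl x) - ∑ i, s i * S.lin F (S.cl (S.V i)) +
    d * S.lin F S.H
  simp only [DivSpace.tw, map_add, map_sub, map_sum, map_smul, smul_eq_mul]

/-- RATIONALITY: there are rational ones. -/
theorem exists_rational (x : g.Lam) (hx : NefG (g.rho x)) :
    ∃ q : S.I → ℚ, ∀ d : ℝ, 0 < d → (fun i => (q i : ℝ)) ∈ S.K x d := by
  classical
  obtain ⟨s, hs⟩ := S.exists_real x hx
  choose z hz using S.int
  have hm : (0 : ℝ) < S.m := by exact_mod_cast S.m_pos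
  have hdeg : ∀ F y, S.deg F (S.cl y) = (((z F y : ℚ) / S.m : ℚ) : ℝ) := by
    intro F y
    push_cast
    rw [eq_div_iff hm.ne', mul_comm]
    exact hz F y
  -- the real solution
  have h1 : ∀ F, ∑ i, ((((z F (S.V i) : ℚ) / S.m : ℚ)) : ℝ) * s i ≤
      (((z F x : ℚ) / S.m : ℚ) : ℝ) := by
    intro F
    have h2 : ∀ d : ℝ, 0 < d → 0 ≤ (S.deg F (S.cl x) - ∑ i, s i * S.deg F (S.cl (S.V i))) +
        d * S.deg F S.H := by
      intro d hd
      have := S.deg_mov F _ (hs d hd)
      rwa [deg_tw] at this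
    have h3 : 0 ≤ S.deg F (S.cl x) - ∑ i, s i * S.deg F (S.cl (S.V i)) := by
      have h4 : Tendsto (fun d : ℝ => (S.deg F (S.cl x) - ∑ i, s i * S.deg F (S.cl (S.V i))) +
          d * S.deg F S.H) (𝓝[>] 0)
          (𝓝 ((S.deg F (S.cl x) - ∑ i, s i * S.deg F (S.cl (S.V i))) + 0 * S.deg F S.H)) := by
        refine Tendsto.mono_left ?_ nhdsWithin_le_nhds
        exact tendsto_const_nhds.add (tendsto_id.mul_const _)
      have h5 := ge_of_tendsto h4 (eventually_mem_nhdsWithin.mono fun d hd => h2 d hd)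
      simpa using h5
    have h6 : ∑ i, ((((z F (S.V i) : ℚ) / S.m : ℚ)) : ℝ) * s i =
        ∑ i, s i * S.deg F (S.cl (S.V i)) := by
      refine Finset.sum_congr rfl fun i _ => ?_
      rw [hdeg, mul_comm]
    rw [h6, ← hdeg]
    linarith
  -- finitely many vectors
  have hfin : (Set.range fun (F : S.Fam) (i : S.I) => ((z F (S.V i) : ℚ) / S.m : ℚ)).Finite := by
    have h2 : (Set.range fun (F : S.Fam) (i : S.I) => ((z F (S.V i) : ℚ) / S.m : ℚ)) ⊆
        Set.pi Set.univ fun _ : S.I => (fun y : ℤ => (y : ℚ) / S.m) ''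
          (Set.Icc (-(S.m * S.c : ℤ)) (S.m * S.c : ℤ)) := by
      rintro w ⟨F, rfl⟩ i -
      refine ⟨z F (S.V i), ?_, rfl⟩
      have h3 := abs_le.1 (S.bound F i)
      have h4 := hz F (S.V i)
      have h5 : (z F (S.V i) : ℝ) ≤ S.m * S.c := by
        rw [← h4]
        exact mul_le_mul_of_nonneg_left h3.2 hm.le
      have h6 : -((S.m : ℝ) * S.c) ≤ z F (S.V i) := by
        rw [← h4, ← mul_neg]
        exact mul_le_mul_of_nonneg_left h3.1 hm.le
      constructor
      · have : ((-(S.m * S.c : ℤ) : ℤ) : ℝ) ≤ (z F (S.V i) : ℝ) := by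
          push_cast
          exact h6
        exact_mod_cast this
      · have : (z F (S.V i) : ℝ) ≤ ((S.m * S.c : ℤ) : ℝ) := by
          push_cast
          exact h5
        exact_mod_cast this
    exact (Set.Finite.pi' fun _ => (Set.finite_Icc _ _).image _).subset (by
      intro w hw i
      exact h2 hw i (Set.mem_univ i))
  obtain ⟨q, hq⟩ := exists_rat (fun (F : S.Fam) (i : S.I) => ((z F (S.V i) : ℚ) / S.m : ℚ))
    (fun F => (z F x : ℚ) / S.m) hfin S.m S.m_pos
    (fun F => ⟨z F x, by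
      have : (S.m : ℚ) ≠ 0 := by exact_mod_cast S.m_pos.ne'
      field_simp⟩) s h1
  refine ⟨q, fun d hd => S.rays x hx _ d hd fun F => ?_⟩
  have h7 : ∑ i, (q i : ℝ) * S.deg F (S.cl (S.V i)) ≤ S.deg F (S.cl x) := by
    have h8 : ((∑ i, ((z F (S.V i) : ℚ) / S.m : ℚ) * q i : ℚ) : ℝ) ≤
        (((z F x : ℚ) / S.m : ℚ) : ℝ) := by exact_mod_cast hq F
    rw [hdeg F x]
    refine le_trans (le_of_eq ?_) h8
    rw [Rat.cast_sum]
    refine Finset.sum_congr rfl fun i _ => ?_
    rw [hdeg, Rat.cast_mul, mul_comm]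
  have h9 : 0 ≤ S.deg F S.H := S.deg_mov F _ S.H_mem
  rw [deg_tw]
  have h10 : 0 ≤ d * S.deg F S.H := mul_nonneg hd.le h9
  linarith

/-- finitely many rational numbers have a common denominator -/
theorem exists_den {ι : Type} [Fintype ι] (q : ι → ℚ) :
    ∃ k : ℕ, 0 < k ∧ ∀ i, ∃ z : ℤ, (k : ℚ) * q i = z := by
  classical
  refine ⟨∏ i, (q i).den, Finset.prod_pos fun i _ => (q i).den_pos, fun i => ?_⟩
  obtain ⟨c, hc⟩ := Finset.dvd_prod_of_mem (fun i => (q i).den) (Finset.mem_univ i)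
  refine ⟨c * (q i).num, ?_⟩
  rw [hc]
  push_cast
  have h1 : ((q i).den : ℚ) * q i = (q i).num := by
    rw [mul_comm]
    exact Rat.mul_den_eq_num (q i)
  calc ((q i).den : ℚ) * c * q i = c * (((q i).den : ℚ) * q i) := by ring
    _ = c * (q i).num := by rw [h1]

include S in

/-- **Nef extension.** A positive multiple of a nef class `L` of the generic fibre extends to a
Cartier class of some model which is nef over the base. -/
theorem nef (L : P) (hL : NefG L) (y : g.Lam) (hy : g.rho y = L)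
    (hq : ∀ mu x, ∃ k : ℕ, 0 < k ∧ ∀ j : ℕ, g.Car mu (j • k • x)) :
    ∃ (mu : g.Mo) (k : ℕ) (x : g.Lam), 0 < k ∧ g.rho x = k • L ∧ g.Nef mu x ∧
      ∀ j : ℕ, 0 < j → g.Car mu (j • x) := by
  obtain ⟨q, hqd⟩ := S.exists_rational y (by rw [hy]; exact hL)
  obtain ⟨k, hk, hkz⟩ := exists_den q
  choose z hz using hkz
  -- an integral class
  let x : g.Lam := k • y - ∑ i, z i • S.V i
  have hx : g.rho x = k • L := by
    simp only [x, map_sub, map_nsmul, map_sum, map_zsmul, S.rho_V, smul_zero,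
      Finset.sum_const_zero, sub_zero, hy]
  have hk' : (0 : ℝ) < k := by exact_mod_cast hk
  have hcl : ∀ d : ℝ, S.tw x 0 d = (k : ℝ) • S.tw y (fun i => (q i : ℝ)) (d / k) := by
    intro d
    simp only [x, DivSpace.tw, map_sub, map_nsmul, map_sum, map_zsmul, smul_sub, smul_add,
      Finset.smul_sum, Pi.zero_apply, zero_smul, Finset.sum_const_zero, sub_zero]
    rw [Nat.cast_smul_eq_nsmul ℝ k, smul_smul, mul_div_cancel₀ d hk'.ne']
    congr 2
    refine Finset.sum_congr rfl fun i _ => ?_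
    rw [smul_smul, ← Int.cast_smul_eq_zsmul ℝ (z i)]
    congr 1
    exact_mod_cast (hz i).symm
  rcases S.mmp L hL k x hk hx (fun d hd => by
    rw [hcl]
    exact S.smul_mem k _ hk'.le (hqd (d / k) (div_pos hd hk'))) with ⟨mu, hmu⟩ | hR
  · obtain ⟨e, he, hcar⟩ := hq mu x
    refine ⟨mu, e * k, e • x, Nat.mul_pos he hk, ?_, S.nef_nsmul mu x e hmu, fun j _ => hcar j⟩
    rw [map_nsmul, hx, smul_smul]
  · obtain ⟨R⟩ := hR
    exact R.false.elim

end NefGerm

end SNef

section SDeriv

namespace Thick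

variable (S : Thick)

private lemma pr_zero' (n : ℕ) (U : S.Op) : S.pr n U 0 = 0 :=
  map_zero (AddMonoidHom.mk' (S.pr n U) (S.pr_add n U))

private lemma pr_sub (n : ℕ) (U : S.Op) (a b) : S.pr n U (a - b) = S.pr n U a - S.pr n U b :=
  map_sub (AddMonoidHom.mk' (S.pr n U) (S.pr_add n U)) a b

private lemma δ_zero (n : ℕ) (U : S.Op) : S.δ n U 0 = 0 :=
  map_zero (AddMonoidHom.mk' (S.δ n U) (S.δ_add n U))

private lemma δ_sub (n : ℕ) (U : S.Op) (a b) : S.δ n U (a - b) = S.δ n U a - S.δ n U b :=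
  map_sub (AddMonoidHom.mk' (S.δ n U) (S.δ_add n U)) a b

private lemma pr_const (n : ℕ) (U : S.Op) (c : S.K) :
    S.pr n U (S.const n U c) = S.const 0 U c := by
  induction n with
  | zero => exact S.pr_zero U _
  | succ m ih => rw [S.pr_succ, S.red_const, ih]

lemma pr_t (n : ℕ) (U : S.Op) : S.pr (n + 1) U (S.mul_t n U 1) = 0 :=
  (S.ker_pr n U _).2 ⟨1, rfl⟩

lemma δ_t (n : ℕ) (U : S.Op) : S.δ (n + 1) U (S.mul_t n U 1) = 0 :=
  (S.exact (n + 1) U _).2 ⟨_, S.red_mul_t n U⟩

lemma δ_const (n : ℕ) (U : S.Op) (c : S.K) : S.δ n U (S.const n U c) = 0 :=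
  (S.exact n U _).2 ⟨S.const (n + 1) U c, S.red_const n U c⟩

/-- **The fibration lifts to all infinitesimal neighbourhoods**: all restriction maps
`g_* O_{X_(n+1)} → g_* O_{X_n}` are surjective. -/
theorem red_surjective (n : ℕ) : ∀ U : S.Op, Function.Surjective (S.red n U) := by
  induction n using Nat.strong_induction_on with
  | _ n ih =>
    have hpr : ∀ m, m ≤ n → ∀ U : S.Op, Function.Surjective (S.pr m U) := by
      intro m
      induction m with
      | zero => exact fun _ U x => ⟨x, S.pr_zero U x⟩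
      | succ m ihm =>
        intro hm U x
        obtain ⟨y, hy⟩ := ihm (by omega) U x
        obtain ⟨z, hz⟩ := ih m (by omega) U y
        exact ⟨z, by rw [S.pr_succ, hz, hy]⟩
    have hker : ∀ (U : S.Op) (a : S.A n U), S.pr n U a = 0 → S.δ n U a = 0 := by
      intro U a ha
      cases n with
      | zero => rw [S.pr_zero] at ha; rw [ha, S.δ_zero]
      | succ m =>
        obtain ⟨b, rfl⟩ := (S.ker_pr m U a).1 ha
        obtain ⟨c, rfl⟩ := ih m (by omega) U b
        rw [S.mul_t_red, S.δ_mul, S.pr_t, S.δ_t, S.zero_sm, S.sm_zero, add_zero]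
    have hwd : ∀ (U : S.Op) (a b : S.A n U), S.pr n U a = S.pr n U b → S.δ n U a = S.δ n U b := by
      intro U a b h
      have h1 := hker U (a - b) (by rw [S.pr_sub, h, sub_self])
      rw [S.δ_sub] at h1
      exact sub_eq_zero.1 h1
    let D : ∀ U, S.A 0 U → S.M U := fun U x => S.δ n U (Function.surjInv (hpr n le_rfl U) x)
    have hD : ∀ (U : S.Op) (a : S.A n U), D U (S.pr n U a) = S.δ n U a := fun U a =>
      hwd U _ _ (Function.surjInv_eq _ _)
    have h0 := S.rigid D
      (fun U x y => by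
        obtain ⟨a, rfl⟩ := hpr n le_rfl U x
        obtain ⟨b, rfl⟩ := hpr n le_rfl U y
        rw [← S.pr_add, hD, hD, hD, S.δ_add])
      (fun V U h x => by
        obtain ⟨a, rfl⟩ := hpr n le_rfl U x
        rw [← S.pr_res, hD, hD, S.δ_res])
      (fun U x y => by
        obtain ⟨a, rfl⟩ := hpr n le_rfl U x
        obtain ⟨b, rfl⟩ := hpr n le_rfl U y
        rw [← S.pr_mul, hD, hD, hD, S.δ_mul])
      (fun U c => by
        rw [← S.pr_const n, hD, S.δ_const])
      (fun U τ x => by
        obtain ⟨a, rfl⟩ := hpr n le_rfl U x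
        rw [← S.pr_act, hD, hD, S.δ_act])
    intro U a
    exact (S.exact n U a).1 (by rw [← hD, h0])

/-- Every function on an affine open set of `B` lifts compatibly to all infinitesimal
neighbourhoods. -/
theorem exists_lift (U : S.Op) (f : S.A 0 U) :
    ∃ F : ∀ n, S.A n U, F 0 = f ∧ ∀ n, S.red n U (F (n + 1)) = F n := by
  choose r hr using fun n => S.red_surjective n U
  refine ⟨fun n => Nat.rec f (fun n a => r n a) n, rfl, fun n => hr n _⟩

end Thick

/-- The generic fibre is covered by curves on which the class is zero. -/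
theorem FibreSurface.isCovered {covered : Prop} (F : FibreSurface covered) : covered := by
  refine F.hilb fun p => ?_
  obtain ⟨U, hU0, hU⟩ := F.toThick.exists_lift (F.nb p) (F.u p)
  obtain ⟨V, hV0, hV⟩ := F.toThick.exists_lift (F.nb p) (F.v p)
  exact ⟨U, V, hU0, hV0, fun n => ⟨hU n, hV n⟩⟩

end SDeriv

section SSurf

/-- If a multiple of the nef class `L` of numerical dimension two extends to a class of a model over
`b` which is semiample on the special fibre, then `L` is semiample. -/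
theorem SurfaceGerm.sa {P : Type} [AddCommGroup P] {g : Germ P} {NefG SAG Two : P → Prop}
    {Dom : g.Mo → g.Lam → Prop} (S : SurfaceGerm g NefG SAG Two Dom) (L : P) (hL : NefG L)
    (h2 : Two L) (n : ℕ) (hn : 0 < n) (h2n : Two (n • L)) (mu : g.Mo) (x : g.Lam)
    (hx : g.rho x = n • L) (hsa : g.SA mu x) (hdom : Dom mu x) : SAG L := by
  obtain ⟨F⟩ := S.fib mu x hsa (by rw [hx]; exact h2n) hdom
  obtain ⟨C, hC⟩ := F.isCovered
  refine S.semi L hL h2 ⟨C, ?_⟩
  rw [hx, S.deg_mul] at hC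
  rcases mul_eq_zero.1 hC with h | h
  · exfalso
    have : n = 0 := by exact_mod_cast h
    omega
  · exact h

end SSurf

section SPeriod

namespace LocalSystems

variable (S : LocalSystems)

/-- `H^1(Z, ℂ)` has no invariants if `h^1(X_b, O) = 0` -/
theorem inv_Z (h : S.irr = 0) (a : S.HZ) (ha : ∀ s, S.actZ s a = a) : a = 0 := by
  obtain ⟨x, hx⟩ := S.fixed_part a ha
  rw [← hx, S.du_bois h x, S.res_zero]

/-- `H^1(T, ℂ)` has no invariants if `h^1(X_b, O) = 0` -/
theorem inv_T (h : S.irr = 0) (a : S.HT) (ha : ∀ s, S.actT s a = a) : a = 0 := by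
  -- an invariant class in the kernel of `mon` is zero
  have key : ∀ b : S.HT, (∀ s, S.actT s b = b) → S.mon b = 0 → b = 0 := by
    intro b hb hmb
    obtain ⟨z, hz⟩ := S.ker_mon b hmb
    have hzi : ∀ s, S.actZ s z = z := by
      intro s
      apply S.sp_injective
      rw [S.sp_act, hz, hb]
    rw [← hz, S.inv_Z h z hzi, S.sp_zero]
  have h1 : S.mon a = 0 := by
    apply key _ _ (S.mon_mon a)
    intro s
    rw [← S.mon_act, ha]
  exact key a ha h1

/-- `H^3(T, ℂ)` has no invariants if `h^1(X_b, O) = 0` -/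
theorem inv_T3 (h : S.irr = 0) (a : S.HT3) (ha : ∀ s, S.act3 s a = a) : a = 0 := by
  apply S.lef_eq_zero
  apply S.inv_T h
  intro s
  rw [← S.lef_act, ha]

end LocalSystems

namespace Lifting

variable {S : LocalSystems} (F : Lifting S)

theorem ob_eq_zero (h : S.irr = 0) (n : ℕ) (x : F.Lift n) : F.ob n x = 0 := by
  apply F.val_injective
  intro p
  rw [← F.taylor n x p]
  exact F.coef_zero (fun t => S.inv_T3 h _ (F.om_act t)) _

/-- the fibration lifts to all orders -/
theorem exists_lifts (h : S.irr = 0) :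
    ∃ x : ∀ n, F.Lift n, x 0 = F.g ∧ ∀ n, F.trunc n (x (n + 1)) = x n := by
  choose nxt hnxt using fun n (x : F.Lift n) => F.lift n x (F.ob_eq_zero h n x)
  let x : ∀ n, F.Lift n := fun n => Nat.rec F.g (fun k y => nxt k y) n
  refine ⟨x, rfl, fun n => ?_⟩
  exact hnxt n (x n)

end Lifting

namespace FibredFibre

variable {P : Type} [AddCommGroup P] {Eff : P → Prop} {L : P}

/-- a positive multiple of `L` is effective on `G` -/
theorem effective (X : FibredFibre P Eff L) : ∃ k : ℕ, 0 < k ∧ Eff (k • L) := by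
  obtain ⟨z, hz, hdz, hzz, hLz⟩ := X.spread (X.F.exists_lifts X.irr)
  -- the additive maps
  let deg : P →+ ℤ := AddMonoidHom.mk' X.deg X.deg_add
  let form : P → P →+ ℤ := fun x => AddMonoidHom.mk' (X.form x) (X.form_add x)
  have hform : ∀ x y, form x y = X.form x y := fun _ _ => rfl
  have hdeg : ∀ x, deg x = X.deg x := fun _ => rfl
  -- `u = deg z`, `w = deg L`; `u L - w z` is numerically trivial
  obtain ⟨u, hu⟩ : ∃ u : ℕ, X.deg z = (u : ℤ) := Int.eq_ofNat_of_zero_le hdz.le
  obtain ⟨w, hw⟩ : ∃ w : ℕ, X.deg L = (w : ℤ) := Int.eq_ofNat_of_zero_le X.L_pos.le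
  have hu0 : 0 < u := by omega
  have hw0 : 0 < w := by
    have h1 := X.L_pos
    omega
  have hd : X.deg ((u : ℤ) • L - (w : ℤ) • z) = 0 := by
    rw [← hdeg, map_sub, map_zsmul, map_zsmul, hdeg, hdeg, hu, hw]
    simp only [smul_eq_mul]
    ring
  have hlin : ∀ x, X.form x ((u : ℤ) • L - (w : ℤ) • z) = u * X.form x L - w * X.form x z := by
    intro x
    rw [← hform, map_sub, map_zsmul, map_zsmul, hform, hform]
    simp only [smul_eq_mul]
  have hq : X.form ((u : ℤ) • L - (w : ℤ) • z) ((u : ℤ) • L - (w : ℤ) • z) = 0 := by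
    rw [hlin, X.form_symm _ L, X.form_symm _ z, hlin, hlin, X.form_symm z L, X.L_sq, hzz, hLz]
    ring
  obtain ⟨k, hk, hk0⟩ := X.index _ hd (le_of_eq hq.symm)
  refine ⟨k * u, Nat.mul_pos hk hu0, ?_⟩
  have : (k * u) • L = (k * w) • z := by
    have h1 : k • ((u : ℤ) • L - (w : ℤ) • z) = 0 := hk0
    rw [smul_sub, sub_eq_zero] at h1
    rw [natCast_zsmul, natCast_zsmul, smul_smul, smul_smul] at h1
    exact h1
  rw [this]
  exact X.eff z _ hz

end FibredFibre

end SPeriod

section SCurve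

/-- If a multiple of `L`, of numerical dimension one and with `c.L = 0`, extends to a class of a
model over `b` which is nef and semiample on the special fibre, then a positive multiple of `L` is
effective. -/
theorem CurveGerm.effective {P : Type} [AddCommGroup P] {g : Germ P} {c : P → ℚ} {One : P → Prop}
    {Dom : g.Mo → g.Lam → Prop} {hG : ℕ → P → ℕ} (C : CurveGerm g c One Dom hG) (L : P) (n : ℕ)
    (hn : 0 < n) (hc : c (n • L) = 0) (h1 : One (n • L)) (mu : g.Mo) (x : g.Lam)
    (hx : g.rho x = n • L) (hnef : g.Nef mu x) (hsa : g.SA mu x) (hdom : Dom mu x) :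
    ∃ k : ℕ, 0 < k ∧ 0 < hG 0 (k • L) := by
  obtain ⟨F⟩ := C.fib mu x hnef hsa (by rw [hx]; exact hc) (by rw [hx]; exact h1) hdom
  obtain ⟨k, hk, hk0⟩ := F.effective
  refine ⟨k * n, Nat.mul_pos hk hn, ?_⟩
  rwa [hx, smul_smul] at hk0

end SCurve

section STypeTwo

namespace K3

variable {N : Type} [AddCommGroup N] (D : K3 N)

lemma act_inv (n : N) (u : D.Lin n) (p : D.Base n) : D.act n u⁻¹ (D.act n u p) = p := by
  rw [← D.act_mul, inv_mul_cancel, D.act_one]

/-- the automorphisms which fix the nef class `n ≠ 0` act on the image through a finite group -/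
theorem exists_finite (n : N) (hn : D.Nef n) (h0 : n ≠ 0) :
    (Set.range (D.act n)).Finite := by
  classical
  rcases (D.nonneg n hn).lt_or_eq with h | h
  · obtain ⟨S, hS⟩ := D.finite n hn h
    refine (S.finite_toSet.image (D.act n)).subset ?_
    rintro _ ⟨u, rfl⟩
    obtain ⟨v, hv, huv⟩ := hS u
    exact ⟨v, hv, huv.symm⟩
  · -- restriction to the critical values
    let φ : (Set.range (D.act n)) → (D.crit n → D.crit n) := fun f p => ⟨f.1 p.1, by
      obtain ⟨u, hu⟩ := f.2
      rw [← hu]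
      exact D.crit_act n u p.1 p.2⟩
    have hφ : Function.Injective φ := by
      rintro ⟨f, u, rfl⟩ ⟨f', v, rfl⟩ h1
      have h2 : ∀ p ∈ D.crit n, D.act n (v⁻¹ * u) p = p := by
        intro p hp
        have h3 : D.act n u p = D.act n v p := congrArg Subtype.val (congrFun h1 ⟨p, hp⟩)
        rw [D.act_mul, h3, D.act_inv]
      obtain ⟨p, hp, q, hq, r, hr, hpq, hpr, hqr⟩ := D.three n hn h0 h.symm
      have h3 := D.moebius n hn h0 h.symm (v⁻¹ * u) p q r hpq hpr hqr (h2 p hp) (h2 q hq) (h2 r hr)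
      refine Subtype.ext (funext fun s => ?_)
      have h4 := congrArg (D.act n v) (h3 s)
      rw [← D.act_mul, mul_inv_cancel_left] at h4
      exact h4
    have := Finite.of_injective φ hφ
    exact Set.toFinite _

/-- Two involutions of `(Y, O(1))` generate a finite group: a power of their product is a scalar, and
inverted by the involutions. -/
theorem exists_pow (n : N) (hn : D.Nef n) (h0 : n ≠ 0) (l l' : D.Lin n) (hl : l * l = 1)
    (hl' : l' * l' = 1) : ∃ k : ℕ, 0 < k ∧ (l * l') ^ k = 1 := by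
  have hfin := D.exists_finite n hn h0
  have hni : ¬ Function.Injective fun k : ℕ => D.act n ((l * l') ^ k) := by
    intro hinj
    refine Set.infinite_range_of_injective hinj (hfin.subset ?_)
    rintro _ ⟨k, rfl⟩
    exact ⟨_, rfl⟩
  rw [Function.not_injective_iff] at hni
  obtain ⟨i, j, hij, hne⟩ := hni
  -- an exponent with trivial action
  have key : ∀ i j : ℕ, i < j → D.act n ((l * l') ^ i) = D.act n ((l * l') ^ j) →
      ∃ k : ℕ, 0 < k ∧ (l * l') ^ k = 1 := by
    intro i j hij h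
    obtain ⟨k, rfl⟩ := Nat.exists_eq_add_of_lt hij
    have h1 : ∀ p, D.act n ((l * l') ^ (k + 1)) p = p := by
      intro p
      have h2 := congrFun h p
      have h3 : (l * l') ^ (i + k + 1) = (l * l') ^ i * (l * l') ^ (k + 1) := by
        rw [← pow_add, add_assoc]
      rw [h3, D.act_mul] at h2
      have h4 := congrArg (D.act n ((l * l') ^ i)⁻¹) h2
      rw [D.act_inv, D.act_inv] at h4
      exact h4.symm
    have h2 := D.central n _ h1 l
    have e1 : l⁻¹ = l := inv_eq_of_mul_eq_one_left hl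
    have e2 : l'⁻¹ = l' := inv_eq_of_mul_eq_one_left hl'
    have hconj : l * (l * l') * l⁻¹ = (l * l')⁻¹ := by
      rw [mul_inv_rev, e1, e2, ← mul_assoc, hl, one_mul]
    have h3 : l * (l * l') ^ (k + 1) * l⁻¹ = ((l * l') ^ (k + 1))⁻¹ := by
      rw [← conj_pow, hconj, inv_pow]
    have h4 : (l * l') ^ (k + 1) = ((l * l') ^ (k + 1))⁻¹ := by
      rw [← h3, ← h2, mul_assoc, mul_inv_cancel, mul_one]
    refine ⟨(k + 1) + (k + 1), by omega, ?_⟩
    rw [pow_add]
    nth_rewrite 1 [h4]
    exact inv_mul_cancel _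
  rcases Nat.lt_or_gt_of_ne hne with h | h
  · exact key i j h hij
  · exact key j i h hij.symm

end K3

namespace TypeTwo

variable {P : Type} [AddCommGroup P] {g : Germ P} {c : P → ℚ} {Dom : g.Mo → g.Lam → Prop}
  (T : TypeTwo g c Dom)

/-- all terms of `c_2.x = 0` vanish -/
lemma terms (mu : g.Mo) (x : g.Lam) (hx : g.Nef mu x) (hc : c (g.rho x) = 0) (i : Bool) :
    T.c2 mu i x = 0 ∧ T.sing mu i x = 0 := by
  have h := T.c_eq mu x
  rw [hc] at h
  have h0 := T.miyaoka mu false x hx
  have h1 := T.miyaoka mu true x hx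
  have h2 := T.sing_nonneg mu false x hx
  have h3 := T.sing_nonneg mu true x hx
  cases i
  · exact ⟨by linarith, by linarith⟩
  · exact ⟨by linarith, by linarith⟩

/-- `x` is trivial on `V_i`, or `V_i` is a conic bundle -/
lemma alternative (mu : g.Mo) (x : g.Lam) (hx : g.Nef mu x) (hc : c (g.rho x) = 0) (i : Bool) :
    T.Zero mu i x ∨ ∃ mu', g.Nef mu' x ∧ T.Conic mu' i x := by
  obtain ⟨mu', hx', hF⟩ := T.mmp mu i x hx fun mu' hx' j hj => by
    have h1 := T.miyaoka mu' i _ hj
    have h2 := (T.terms mu' x hx' hc i).1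
    have h3 := T.c2_neg mu' i
    rw [T.c2_add, h2, mul_zero, zero_add] at h1
    linarith
  rcases hF with hF | hF | hF
  · exact Or.inl (T.zero_indep mu' mu i x hx' hx hF)
  · obtain ⟨a, e, he, heq, h0⟩ := T.delPezzo mu' i x hx' hF (T.terms mu' x hx' hc i).2
    rw [(T.terms mu' x hx' hc i).1] at heq
    have ha0 : a = 0 := by
      rcases mul_eq_zero.1 heq.symm with h | h
      · exact h
      · exact absurd h he.ne'
    exact Or.inl (T.zero_indep mu' mu i x hx' hx (h0 ha0))
  · exact Or.inr ⟨mu', hx', hF⟩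

/-- if `x` is trivial on `D` then it is trivial on `X_b` -/
lemma zero_of_res (mu : g.Mo) (x : g.Lam) (hx : g.Nef mu x) (hc : c (g.rho x) = 0)
    (hn : T.res mu x = 0) (i : Bool) : T.Zero mu i x := by
  rcases T.alternative mu x hx hc i with h | ⟨mu', hx', h⟩
  · exact h
  · refine T.zero_indep mu' mu i x hx' hx (T.conic_zero mu' i x h ?_)
    rw [T.res_indep mu' mu x hx' hx, hn]

/-- otherwise both components are conic bundles -/
lemma conics (mu : g.Mo) (x : g.Lam) (hx : g.Nef mu x) (hc : c (g.rho x) = 0)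
    (hn : T.res mu x ≠ 0) (i : Bool) : ∃ mu', g.Nef mu' x ∧ T.Conic mu' i x := by
  rcases T.alternative mu x hx hc i with h | h
  · exact absurd (T.zero_res mu i x h) hn
  · exact h

include T in

/-- A class which is nef on the model `mu` and has `c_2.x = 0` on the general fibre is semiample on
`X_b`. -/
theorem semiample (mu : g.Mo) (x : g.Lam) (hx : g.Nef mu x) (hc : c (g.rho x) = 0) :
    g.SA mu x := by
  by_cases hn : T.res mu x = 0
  · exact T.zero_sa mu x hx (T.zero_of_res mu x hx hc hn)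
  · obtain ⟨mu0, h0, f0⟩ := T.conics mu x hx hc hn false
    obtain ⟨mu1, h1, f1⟩ := T.conics mu x hx hc hn true
    obtain ⟨l0, k0, e0⟩ := T.cover mu0 false x _ f0 (T.res_indep mu0 mu x h0 hx)
    obtain ⟨l1, k1, e1⟩ := T.cover mu1 true x _ f1 (T.res_indep mu1 mu x h1 hx)
    exact T.glue mu x hx mu0 l0 mu1 l1 h0 h1 k0 k1
      (T.D.exists_pow _ (T.res_nef mu x hx) hn l0 l1 e0 e1)

include T in

/-- If `x` is moreover not torsion on the general fibre then all strata of `X_b` are mapped onto the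
image of `X_b`. -/
theorem dom (mu : g.Mo) (x : g.Lam) (hx : g.Nef mu x) (hc : c (g.rho x) = 0)
    (ht : ∀ k : ℕ, 0 < k → k • g.rho x ≠ 0) : Dom mu x := by
  by_cases hn : T.res mu x = 0
  · obtain ⟨k, hk, h⟩ := T.zero_tors mu x hx (T.zero_of_res mu x hx hc hn)
    exact absurd h (ht k hk)
  · obtain ⟨mu0, h0, f0⟩ := T.conics mu x hx hc hn false
    obtain ⟨mu1, h1, f1⟩ := T.conics mu x hx hc hn true
    exact T.onto mu x (T.semiample mu x hx hc) mu0 mu1 h0 h1 f0 f1

end TypeTwo

end STypeTwo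

section SJoin

namespace Setup

variable {X : CY} {h21 : ℕ} (S : Setup X h21)

lemma T_smul (x y z : X.P) (k : ℕ) : X.T x y (k • z) = (k : ℤ) * X.T x y z := by
  have h := (X.lines.add_T x y).zsmul (k : ℤ) z
  rw [natCast_zsmul] at h
  rw [h, smul_eq_mul]

lemma c_smul (x : X.P) (k : ℕ) : X.c (k • x) = (k : ℤ) * X.c x := by
  have h := X.lines.add_c.zsmul (k : ℤ) x
  rw [natCast_zsmul] at h
  rw [h, smul_eq_mul]

lemma two_smul (L : X.P) (k : ℕ) (z : X.P) : X.T (k • L) (k • L) z =
    (k : ℤ) ^ 2 * X.T L L z := by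
  rw [X.lines.symm23, T_smul, X.lines.symm23 (k • L) z L, X.lines.symm12 (k • L) L z,
    X.lines.symm23 L (k • L) z, T_smul, X.lines.symm23 L z L]
  ring

/-- a multiple of `L` which is semiample on a special fibre -/
lemma up (b : S.mod.B) (hkind : S.hodge.kind b = 0 ∨ (S.hodge.kind b = 1 ∧ ¬ S.hodge.Abel b))
    (L : X.P) (hL : S.gen.Nef L) (hT : X.T L L L = 0) (hc : X.c L = 0)
    (ht : ∀ k : ℕ, 0 < k → k • L ≠ 0) (k : ℕ) (hk : 0 < k)
    (mu : (S.mod.germ b).Mo) (x : (S.mod.germ b).Lam) (hx : (S.mod.germ b).rho x = k • L)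
    (hn : (S.mod.germ b).Nef mu x) (hs : (S.mod.germ b).SA mu x)
    (hd : (S.fibre b).Dom mu x) : ∃ m : ℕ, 0 < m ∧ S.gen.h 0 (m • L) ≠ 0 := by
  have hk' : ((k : ℤ)) ^ 2 ≠ 0 := pow_ne_zero 2 (by exact_mod_cast hk.ne')
  by_cases h2 : ∃ z, X.T L L z ≠ 0
  · refine S.gen.sa L (((S.fibre b).surf hkind).sa L hL ⟨hT, h2⟩ k hk ⟨?_, ?_⟩ mu x hx hs hd)
    · rw [two_smul L k, T_smul, hT]
      simp
    · obtain ⟨z, hz⟩ := h2
      refine ⟨z, ?_⟩
      rw [two_smul L k]
      exact mul_ne_zero hk' hz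
  · push Not at h2
    obtain ⟨m, hm, h⟩ := ((S.fibre b).curve hkind).effective L k hk (by simp [CY.cQ, c_smul, hc])
      ⟨ht k hk, fun z => by rw [two_smul L k, h2, mul_zero]⟩ mu x hx hn hs hd
    exact ⟨m, hm, h.ne'⟩

include S in

theorem main (h5 : 5 ≤ h21) (L : X.P) (hL : X.Nef L) : X.SA L := by
  by_contra hs
  obtain ⟨hT, hc, hac⟩ := X.not_sa L hL hs
  have hnG := S.gen.nef L hL
  have hG : ∀ k : ℕ, 0 < k → ∀ i, S.gen.h i (k • L) = 0 := by
    intro k hk i
    rcases Nat.lt_or_ge i 4 with hi | hi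
    · have h2 := S.gen.semi ⟨i, hi⟩ (k • L)
      have h3 := hac (k : ℤ) ⟨i, hi⟩ (by omega)
      rw [natCast_zsmul] at h3
      rw [h3] at h2
      exact Nat.le_zero.1 h2
    · exact S.gen.top i _ hi
  have hno : ¬ ∃ m : ℕ, 0 < m ∧ S.gen.h 0 (m • L) ≠ 0 := by
    rintro ⟨m, hm, h⟩
    exact h (hG m hm 0)
  have ht : ∀ k : ℕ, 0 < k → k • L ≠ 0 := by
    intro k hk h
    apply hs
    rw [← X.lines.sa_mul k L (by omega), natCast_zsmul, h]
    exact X.lines.sa_zero
  refine S.mod.exists_bad L (S.interior.finite L hnG) hG ?_ ?_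
  · intro b hb hnb
    have hk := S.int_kind b hb
    have hcar : ∀ j : ℕ, 0 < j → (S.mod.germ b).Car (S.mod.mu0 b) (j • S.mod.lift b L) := by
      intro j _
      rw [← map_nsmul]
      exact S.mod.car_int b _ hb
    rcases ((S.fibre b).one hk).dichotomy (S.mod.mu0 b) (S.mod.lift b L) hcar hnb with h | h
    · exact absurd (S.up b (Or.inl hk) L hnG hT hc ht 1 one_pos (S.mod.mu0 b) (S.mod.lift b L)
        (by rw [S.mod.rho_lift, one_smul]) hnb h ((S.fibre b).dom hk _ _)) hno
    · exact h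
  · intro b hb
    rcases S.hodge.kinds (by omega) b hb with hk | ⟨hk, _, ha⟩
    · obtain ⟨mu, k, x, hk0, hx, hn, hcar⟩ := ((S.fibre b).nef (Or.inl hk)).nef L hnG _
        (S.mod.rho_lift b L) (S.mod.qfac b)
      rcases ((S.fibre b).one hk).dichotomy mu x hcar hn with h | h
      · exact absurd (S.up b (Or.inl hk) L hnG hT hc ht k hk0 mu x hx hn h ((S.fibre b).dom hk _ _)) hno
      · exact ⟨mu, k, x, hk0, hx, fun j hj => ⟨hcar j hj, h j hj⟩⟩
    · exfalso
      obtain ⟨mu, k, x, hk0, hx, hn, -⟩ := ((S.fibre b).nef (Or.inr ⟨hk, ha h5⟩)).nef L hnG _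
        (S.mod.rho_lift b L) (S.mod.qfac b)
      have hcx : X.cQ ((S.mod.germ b).rho x) = 0 := by
        rw [hx, CY.cQ, c_smul, hc]
        simp
      refine hno (S.up b (Or.inr ⟨hk, ha h5⟩) L hnG hT hc ht k hk0 mu x hx hn
        (((S.fibre b).two hk (ha h5)).semiample mu x hn hcx)
        (((S.fibre b).two hk (ha h5)).dom mu x hn hcx ?_))
      intro m hm
      rw [hx, smul_smul]
      exact ht _ (Nat.mul_pos hm hk0)

end Setup

end SJoin

section SSplit

/-- the restriction of the line bundle to `K` is torsion -/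
theorem Flat.torsion {G : Type} [Group G] [Fintype G] (F : Flat G) : Fintype.card G • F.p = 0 := by
  have h1 : ∀ w, ∑ g, F.actW g w = 0 := by
    intro w
    refine F.inv _ fun g => ?_
    have h := map_sum (AddMonoidHom.mk' (F.actW g) (F.add_W g)) (fun x => F.actW x w) Finset.univ
    refine h.trans ?_
    calc ∑ x, F.actW g (F.actW x w) = ∑ x, F.actW (g * x) w :=
          Finset.sum_congr rfl fun x _ => (F.mul_W g x w).symm
      _ = ∑ x, F.actW x w := Fintype.sum_equiv (Equiv.mulLeft g) _ _ fun x => rfl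
  have h2 : ∀ v, ∑ g, F.actV g v = 0 := by
    intro v
    obtain ⟨w, rfl⟩ := F.r_onto v
    have h := map_sum (AddMonoidHom.mk' F.r F.add_r) (fun x => F.actW x w) Finset.univ
    calc ∑ g, F.actV g (F.r w) = ∑ g, F.r (F.actW g w) :=
          Finset.sum_congr rfl fun g _ => (F.r_act g w).symm
      _ = F.r (∑ g, F.actW g w) := h.symm
      _ = 0 := by rw [h1]; exact map_zero (AddMonoidHom.mk' F.r F.add_r)
  have h3 := F.rigid h2 F.p
  rw [Finset.sum_congr rfl fun g _ => F.p_inv g] at h3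
  simpa using h3

/-- nef classes on `X` are semiample if this is true for the irreducible factors -/
theorem Split.semiample (D : Split) (h : ∀ i y, D.nefY i y → D.saY i y) (x : D.P)
    (hx : D.Nef x) : D.SA x := by
  refine D.descent x (fun i => h i _ (D.nef_res x i hx)) ?_
  obtain ⟨F, hF⟩ := D.flat x hx
  exact hF _ Fintype.card_pos F.torsion

end SSplit

end Pool.Agent.H48.LM
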